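import Pool.Agent.Lib.MP_d64ee4_lc.Params

set_option autoImplicit false
set_option linter.unusedSectionVars false

/-!
# Assembly: every finite abelian group
-/

namespace Pool.Agent.Lib.MP_d64ee4_lc

open Matrix Polynomial

theorem small_final (F : Type) [Field F] (M : ℕ) (hM : 1 ≤ M) (ε : ℝ) (hε : 0 < ε) :
    ∃ (C c : ℝ), 0 ≤ C ∧ 0 < c ∧ ∀ {P : Type} [Fintype P] [DecidableEq P] (m : P → ℕ)
      [∀ p, NeZero (m p)] (_ : ∀ p, 2 ≤ m p) (_ : ∀ p, m p ≤ M),
      StrR (fun f : (∀ p, ZMod (m p)) → F => hank f)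
        (C * (∏ p, (m p : ℝ)) * Real.exp (-(c * Fintype.card P)))
        (Real.exp (ε * Real.log (∏ p, (m p : ℝ)))) := by
  obtain ⟨D, hD⟩ := small_over_F F M
  have hlog2 : 0 < Real.log 2 := Real.log_pos (by norm_num)
  have hMr : (1 : ℝ) ≤ M := by exact_mod_cast hM
  have hM0 : (0 : ℝ) < M := by linarith
  set L : ℝ := 6 * M / (ε * Real.log 2) with hL
  have hL0 : 0 < L := by positivity
  set δ : ℝ := ε * Real.log 2 / (12 * L) with hδ
  have hδ0 : 0 < δ := by positivity
  refine ⟨D * (3 * 2), 2 * δ ^ 2 / (M : ℝ) ^ 2, by positivity, by positivity, ?_⟩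
  intro P _ _ m _ hm2 hmM
  set n := Fintype.card P with hn
  refine (hD m hmM (δ * n) L (by positivity) hL0.le).mono ?_ ?_
  · rw [rkB_eq _ (n : ℝ) _ δ _ rfl]
    apply le_of_eq
    have : (n : ℝ) * (2 * δ ^ 2 / (M : ℝ) ^ 2) = 2 * δ ^ 2 / (M : ℝ) ^ 2 * n := by ring
    rw [this]
    ring
  · unfold spB
    rw [← Real.exp_nat_mul]
    apply Real.exp_le_exp.mpr
    have hlogN : (n : ℝ) * Real.log 2 ≤ Real.log (∏ p, (m p : ℝ)) := by
      rw [Real.log_prod (fun p _ => by
        have : (m p : ℝ) ≠ 0 := by exact_mod_cast NeZero.ne (m p)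
        exact this)]
      calc (n : ℝ) * Real.log 2 = ∑ _p : P, Real.log 2 := by simp [hn]
        _ ≤ ∑ p, Real.log (m p) := by
          refine Finset.sum_le_sum (fun p _ => ?_)
          apply Real.log_le_log (by norm_num)
          exact_mod_cast hm2 p
    have h1 : Real.exp (-L) * M ≤ ε * Real.log 2 / 6 := by
      have h2 : Real.exp (-L) ≤ L⁻¹ := by
        rw [Real.exp_neg]
        apply inv_anti₀ hL0
        have := Real.add_one_le_exp L
        linarith
      calc Real.exp (-L) * M ≤ L⁻¹ * M := mul_le_mul_of_nonneg_right h2 hM0.le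
        _ = ε * Real.log 2 / 6 := by
          rw [hL]
          field_simp
    have h3 : 2 * L * δ = ε * Real.log 2 / 6 := by
      rw [hδ]
      field_simp
      ring
    push_cast
    calc (3 : ℝ) * (L * (2 * (δ * n)) + Real.exp (-L) * M * n)
        = 3 * n * (2 * L * δ + Real.exp (-L) * M) := by ring
      _ ≤ 3 * n * (ε * Real.log 2 / 6 + ε * Real.log 2 / 6) := by
          apply mul_le_mul_of_nonneg_left _ (by positivity)
          linarith
      _ = ε * (n * Real.log 2) := by ring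
      _ ≤ ε * Real.log (∏ p, (m p : ℝ)) := mul_le_mul_of_nonneg_left hlogN hε.le

/-- digit representation of a product of large cyclic groups -/
theorem exists_digits (b κ : ℕ) (hb : 2 ≤ b) (hκ : 2 ≤ κ) {ι : Type} [Fintype ι] [DecidableEq ι]
    (m : ι → ℕ) [∀ i, NeZero (m i)] (hm : ∀ i, b ^ κ ≤ m i) :
    ∃ (P : Type) (_ : Fintype P) (_ : DecidableEq P) (dig : (∀ i, ZMod (m i)) → P → ℕ)
      (g : P → ∀ i, ZMod (m i)), (∀ x p, dig x p < b) ∧ (∀ x, x = ∑ p, dig x p • g p) ∧
      (b : ℝ) ^ Fintype.card P ≤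
        (Fintype.card (∀ i, ZMod (m i)) : ℝ) * Real.exp (Fintype.card P * (Real.log b / κ)) ∧
      (Fintype.card (∀ i, ZMod (m i)) : ℝ) ≤ (b : ℝ) ^ Fintype.card P := by
  classical
  have hb1 : 1 < b := by omega
  let k : ι → ℕ := fun i => Nat.clog b (m i)
  have hmk : ∀ i, m i ≤ b ^ k i := fun i => Nat.le_pow_clog hb1 (m i)
  have hlt : ∀ (x : ∀ i, ZMod (m i)) i, (x i).val < b ^ k i := fun x i =>
    lt_of_lt_of_le (x i).val_lt (hmk i)
  let dig : (∀ i, ZMod (m i)) → (Σ i, Fin (k i)) → ℕ := fun x p =>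
    ((finFunctionFinEquiv (m := b) (n := k p.1)).symm ⟨(x p.1).val, hlt x p.1⟩ p.2 : ℕ)
  let g : (Σ i, Fin (k i)) → ∀ i, ZMod (m i) := fun p =>
    Pi.single p.1 ((b ^ (p.2 : ℕ) : ℕ) : ZMod (m p.1))
  have hcardG : (Fintype.card (∀ i, ZMod (m i)) : ℝ) = ∏ i, (m i : ℝ) := by
    rw [Fintype.card_pi]
    push_cast
    exact Finset.prod_congr rfl (fun i _ => by rw [ZMod.card])
  have hcardP : Fintype.card (Σ i, Fin (k i)) = ∑ i, k i := by
    rw [Fintype.card_sigma]
    simp
  have hbr : (2 : ℝ) ≤ b := by exact_mod_cast hb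
  have hb0 : (0 : ℝ) < b := by linarith
  refine ⟨Σ i, Fin (k i), inferInstance, inferInstance, dig, g, ?_, ?_, ?_, ?_⟩
  · intro x p
    exact Fin.is_lt _
  · intro x
    funext i
    rw [Finset.sum_apply, Fintype.sum_sigma]
    rw [Finset.sum_eq_single i]
    · have h1 : ∀ a : Fin (k i), (dig x ⟨i, a⟩ • g ⟨i, a⟩) i =
          ((dig x ⟨i, a⟩ * b ^ (a : ℕ) : ℕ) : ZMod (m i)) := by
        intro a
        simp [g]
      simp_rw [h1]
      rw [← Nat.cast_sum]
      have h2 : ∑ a : Fin (k i), dig x ⟨i, a⟩ * b ^ (a : ℕ) = (x i).val := by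
        have h3 := finFunctionFinEquiv_apply (m := b) (n := k i)
          ((finFunctionFinEquiv (m := b) (n := k i)).symm ⟨(x i).val, hlt x i⟩)
        rw [Equiv.apply_symm_apply] at h3
        exact h3.symm
      rw [h2, ZMod.natCast_zmod_val]
    · intro j _ hj
      refine Finset.sum_eq_zero (fun a _ => ?_)
      simp [g, Pi.single_eq_of_ne (Ne.symm hj)]
    · intro h
      exact absurd (Finset.mem_univ _) h
  · rw [hcardG, hcardP]
    push_cast
    rw [Finset.sum_mul, Real.exp_sum, ← Finset.prod_mul_distrib, ← Finset.prod_pow_eq_pow_sum]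
    refine Finset.prod_le_prod (fun i _ => by positivity) (fun i _ => ?_)
    have hκk : κ ≤ k i := by
      have h1 : b ^ κ ≤ b ^ k i := (hm i).trans (hmk i)
      exact (Nat.pow_le_pow_iff_right hb1).mp h1
    have hmi : 1 < m i := by
      have h2 : b ^ 1 ≤ b ^ κ := Nat.pow_le_pow_right (by omega) (by omega)
      have := hm i
      rw [pow_one] at h2
      omega
    have h3 : b ^ (k i - 1) < m i := by
      have := Nat.pow_pred_clog_lt_self hb1 hmi
      simpa using this
    have h4 : (b : ℝ) ^ k i ≤ m i * b := by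
      have h5 : b ^ k i = b ^ (k i - 1) * b := by
        rw [← pow_succ]
        congr 1
        omega
      have h6 : b ^ k i ≤ m i * b := by
        rw [h5]
        exact Nat.mul_le_mul_right _ h3.le
      exact_mod_cast h6
    refine h4.trans (mul_le_mul_of_nonneg_left ?_ (Nat.cast_nonneg _))
    calc (b : ℝ) = Real.exp (Real.log b) := (Real.exp_log hb0).symm
      _ ≤ Real.exp (k i * (Real.log b / κ)) := by
        apply Real.exp_le_exp.mpr
        have h7 : 0 ≤ Real.log b := Real.log_nonneg (by linarith)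
        have h8 : (0 : ℝ) < κ := by
          have : 0 < κ := by omega
          exact_mod_cast this
        rw [← mul_div_assoc, le_div_iff₀ h8]
        have h9 : (κ : ℝ) ≤ k i := by exact_mod_cast hκk
        nlinarith
  · rw [hcardG, hcardP, ← Finset.prod_pow_eq_pow_sum]
    refine Finset.prod_le_prod (fun i _ => by positivity) (fun i _ => ?_)
    exact_mod_cast hmk i

end Pool.Agent.Lib.MP_d64ee4_lc
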