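import Pool.Agent.Lib.MP_d64ee4_lc.Large

set_option autoImplicit false
set_option linter.unusedSectionVars false

/-!
# Descent to a subfield, direct products, transport along isomorphisms
-/

namespace Pool.Agent.Lib.MP_d64ee4_lc

open Matrix

section descent

variable {F K : Type*} [Field F] [Field K] [Algebra F K] [FiniteDimensional F K]

theorem StrR.descend {Z : Type*} {I J : Type*} [Fintype I] [Fintype J] (M : Z → Matrix I J F)
    {r s : ℝ} (h : StrR (fun z => (M z).map (algebraMap F K)) r s) :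
    StrR M (Module.finrank F K * r) s := by
  classical
  obtain ⟨n₁, n₂, Q, Q', P, h1, h2, h3⟩ := h
  set D := Module.finrank F K with hD
  let b := Module.finBasis F K
  obtain ⟨lam, hlam⟩ := LinearMap.exists_leftInverse_of_injective (Algebra.linearMap F K)
    (LinearMap.ker_eq_bot.mpr (FaithfulSMul.algebraMap_injective F K))
  have hlam' : ∀ a : F, lam (algebraMap F K a) = a := fun a => by
    have := LinearMap.congr_fun hlam a
    simpa using this
  have key : ∀ a c : K, lam (a * c) = ∑ d, b.repr a d * lam (b d * c) := by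
    intro a c
    conv_lhs => rw [← b.sum_repr a]
    rw [Finset.sum_mul, map_sum]
    refine Finset.sum_congr rfl (fun d _ => ?_)
    rw [smul_mul_assoc, map_smul, smul_eq_mul]
  refine StrR.of_fintype (R := Fin D × Fin n₁) (R' := Fin D × Fin n₂)
    (Matrix.of fun i dr => b.repr (Q i dr.2) dr.1) (Matrix.of fun dr j => b.repr (Q' dr.2 j) dr.1) P
    ?_ h2 ?_
  · simp only [Fintype.card_prod, Fintype.card_fin]
    push_cast at h1 ⊢
    rw [← mul_add]
    exact mul_le_mul_of_nonneg_left h1 (Nat.cast_nonneg _)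
  · intro z
    obtain ⟨X, Y, S, h4, h5⟩ := h3 z
    refine ⟨Matrix.of fun dr j => lam (b dr.1 * X dr.2 j),
      Matrix.of fun i dr => lam (b dr.1 * Y i dr.2), Matrix.of fun i j => lam (S i j), ?_, ?_⟩
    · ext i j
      have h6 : M z i j = lam ((Q * X + Y * Q' + S) i j) := by
        rw [← h4]
        show M z i j = lam (algebraMap F K (M z i j))
        rw [hlam']
      rw [h6]
      simp only [Matrix.add_apply, Matrix.mul_apply, Matrix.of_apply, map_add, map_sum]
      congr 1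
      congr 1
      · rw [Fintype.sum_prod_type, Finset.sum_comm]
        exact Finset.sum_congr rfl (fun r _ => key _ _)
      · rw [Fintype.sum_prod_type, Finset.sum_comm]
        refine Finset.sum_congr rfl (fun r _ => ?_)
        rw [mul_comm (Y i r) (Q' r j), key]
        exact Finset.sum_congr rfl (fun d _ => mul_comm _ _)
    · intro i j hij
      refine h5 i j (fun h0 => hij ?_)
      simp [h0]

end descent

section transport

variable {K : Type*} [Field K]

lemma StrR.hank_equiv {G G' : Type*} [AddCommGroup G] [AddCommGroup G'] [Fintype G] [Fintype G']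
    (e : G ≃+ G') {r s : ℝ} (h : StrR (fun f : G' → K => hank f) r s) :
    StrR (fun f : G → K => hank f) r s := by
  have h1 := (h.comp_param (fun f : G → K => fun y => f (e.symm y))).submatrix e e e.injective
    e.injective
  refine Eq.mp ?_ h1
  congr 1
  funext f
  ext x y
  simp [hank]

/-- direct products -/
theorem StrR.hank_prod {G₁ G₂ : Type*} [AddCommGroup G₁] [AddCommGroup G₂] [Fintype G₁]
    [Fintype G₂] {r₁ s₁ r₂ s₂ : ℝ} (h₁ : StrR (fun f : G₁ → K => hank f) r₁ s₁)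
    (h₂ : StrR (fun f : G₂ → K => hank f) r₂ s₂) (hs₁ : 0 ≤ s₁) (hs₂ : 0 ≤ s₂) :
    StrR (fun f : G₁ × G₂ → K => hank f)
      (r₁ * Fintype.card G₂ + Fintype.card G₁ * r₂) (s₁ * s₂) := by
  classical
  obtain ⟨n₁, m₁, Q₁, Q₁', P₁, a1, a2, a3⟩ := h₁
  obtain ⟨n₂, m₂, Q₂, Q₂', P₂, b1, b2, b3⟩ := h₂
  refine StrR.of_fintype (R := (Fin n₁ × G₂) ⊕ (G₁ × Fin n₂)) (R' := (Fin m₁ × G₂) ⊕ (G₁ × Fin m₂))
    (Matrix.fromCols
      (Matrix.of fun (x : G₁ × G₂) (rc : Fin n₁ × G₂) => if x.2 = rc.2 then Q₁ x.1 rc.1 else 0)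
      (Matrix.of fun (x : G₁ × G₂) (cr : G₁ × Fin n₂) => if x.1 = cr.1 then Q₂ x.2 cr.2 else 0))
    (Matrix.fromRows
      (Matrix.of fun (rc : Fin m₁ × G₂) (y : G₁ × G₂) => if y.2 = rc.2 then Q₁' rc.1 y.1 else 0)
      (Matrix.of fun (cr : G₁ × Fin m₂) (y : G₁ × G₂) => if y.1 = cr.1 then Q₂' cr.2 y.2 else 0))
    (fun x y => P₁ x.1 y.1 ∧ P₂ x.2 y.2) ?_ ?_ ?_
  · simp only [Fintype.card_sum, Fintype.card_prod, Fintype.card_fin]
    push_cast at a1 b1 ⊢
    have c1 : (0 : ℝ) ≤ Fintype.card G₂ := Nat.cast_nonneg _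
    have c2 : (0 : ℝ) ≤ Fintype.card G₁ := Nat.cast_nonneg _
    nlinarith [mul_le_mul_of_nonneg_right a1 c1, mul_le_mul_of_nonneg_left b1 c2]
  · constructor
    · intro x
      have : (Finset.univ.filter fun y : G₁ × G₂ => P₁ x.1 y.1 ∧ P₂ x.2 y.2) =
          (Finset.univ.filter fun y => P₁ x.1 y) ×ˢ (Finset.univ.filter fun y => P₂ x.2 y) := by
        ext y
        simp [Finset.mem_product]
      have h5 : ((Finset.univ.filter fun y : G₁ × G₂ => P₁ x.1 y.1 ∧ P₂ x.2 y.2).card : ℝ) ≤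
          s₁ * s₂ := by
        rw [this, Finset.card_product, Nat.cast_mul]
        exact mul_le_mul (by convert a2.1 x.1) (by convert b2.1 x.2) (Nat.cast_nonneg _) hs₁
      convert h5
    · intro y
      have : (Finset.univ.filter fun x : G₁ × G₂ => P₁ x.1 y.1 ∧ P₂ x.2 y.2) =
          (Finset.univ.filter fun x => P₁ x y.1) ×ˢ (Finset.univ.filter fun x => P₂ x y.2) := by
        ext y
        simp [Finset.mem_product]
      have h5 : ((Finset.univ.filter fun x : G₁ × G₂ => P₁ x.1 y.1 ∧ P₂ x.2 y.2).card : ℝ) ≤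
          s₁ * s₂ := by
        rw [this, Finset.card_product, Nat.cast_mul]
        exact mul_le_mul (by convert a2.2 y.1) (by convert b2.2 y.2) (Nat.cast_nonneg _) hs₁
      convert h5
  · intro f
    choose X Y S hXY hS using fun z₂ : G₂ => a3 (fun z₁ => f (z₁, z₂))
    choose X' Y' S' hXY' hS' using fun xy : G₁ × G₁ =>
      b3 (fun z₂ => if P₁ xy.1 xy.2 then S z₂ xy.1 xy.2 else 0)
    refine ⟨Matrix.fromRows
        (Matrix.of fun (rc : Fin n₁ × G₂) (y : G₁ × G₂) => X (rc.2 + y.2) rc.1 y.1)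
        (Matrix.of fun (cr : G₁ × Fin n₂) (y : G₁ × G₂) =>
          if P₁ cr.1 y.1 then X' (cr.1, y.1) cr.2 y.2 else 0),
      Matrix.fromCols
        (Matrix.of fun (x : G₁ × G₂) (rc : Fin m₁ × G₂) => Y (x.2 + rc.2) x.1 rc.1)
        (Matrix.of fun (x : G₁ × G₂) (cr : G₁ × Fin m₂) =>
          if P₁ x.1 cr.1 then Y' (x.1, cr.1) x.2 cr.2 else 0),
      Matrix.of fun x y => if P₁ x.1 y.1 then S' (x.1, y.1) x.2 y.2 else 0, ?_, ?_⟩
    · rw [Matrix.fromCols_mul_fromRows, Matrix.fromCols_mul_fromRows]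
      ext ⟨x₁, x₂⟩ ⟨y₁, y₂⟩
      have e1 : f (x₁ + y₁, x₂ + y₂) = (Q₁ * X (x₂ + y₂) + Y (x₂ + y₂) * Q₁' + S (x₂ + y₂)) x₁ y₁ := by
        have := congrFun (congrFun (hXY (x₂ + y₂)) x₁) y₁
        rw [← this]
        rfl
      have e2 : (if P₁ x₁ y₁ then S (x₂ + y₂) x₁ y₁ else 0) =
          (Q₂ * X' (x₁, y₁) + Y' (x₁, y₁) * Q₂' + S' (x₁, y₁)) x₂ y₂ := by
        have := congrFun (congrFun (hXY' (x₁, y₁)) x₂) y₂
        rw [← this]
        rfl
      have e3 : S (x₂ + y₂) x₁ y₁ = (if P₁ x₁ y₁ then S (x₂ + y₂) x₁ y₁ else 0) := by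
        by_cases hP : P₁ x₁ y₁
        · rw [if_pos hP]
        · rw [if_neg hP]
          by_contra hne
          exact hP (hS _ _ _ hne)
      rw [hank_apply]
      show f (x₁ + y₁, x₂ + y₂) = _
      rw [e1]
      simp only [Matrix.add_apply, Matrix.mul_apply, Matrix.of_apply]
      rw [e3]
      have t1 : ∑ rc : Fin n₁ × G₂, (if x₂ = rc.2 then Q₁ x₁ rc.1 else 0) *
          X (rc.2 + y₂) rc.1 y₁ = ∑ r, Q₁ x₁ r * X (x₂ + y₂) r y₁ := by
        rw [Fintype.sum_prod_type]
        refine Finset.sum_congr rfl (fun r _ => ?_)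
        simp only [ite_mul, zero_mul, Finset.sum_ite_eq, Finset.mem_univ, if_true]
      have t2 : ∑ rc : Fin m₁ × G₂, Y (x₂ + rc.2) x₁ rc.1 *
          (if y₂ = rc.2 then Q₁' rc.1 y₁ else 0) = ∑ r, Y (x₂ + y₂) x₁ r * Q₁' r y₁ := by
        rw [Fintype.sum_prod_type]
        refine Finset.sum_congr rfl (fun r _ => ?_)
        simp only [mul_ite, mul_zero, Finset.sum_ite_eq, Finset.mem_univ, if_true]
      have t3 : ∑ cr : G₁ × Fin n₂, (if x₁ = cr.1 then Q₂ x₂ cr.2 else 0) *
          (if P₁ cr.1 y₁ then X' (cr.1, y₁) cr.2 y₂ else 0) =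
          if P₁ x₁ y₁ then ∑ r, Q₂ x₂ r * X' (x₁, y₁) r y₂ else 0 := by
        rw [Fintype.sum_prod_type_right]
        simp only [ite_mul, zero_mul, Finset.sum_ite_eq, Finset.mem_univ, if_true]
        split_ifs <;> simp
      have t4 : ∑ cr : G₁ × Fin m₂, (if P₁ x₁ cr.1 then Y' (x₁, cr.1) x₂ cr.2 else 0) *
          (if y₁ = cr.1 then Q₂' cr.2 y₂ else 0) =
          if P₁ x₁ y₁ then ∑ r, Y' (x₁, y₁) x₂ r * Q₂' r y₂ else 0 := by
        rw [Fintype.sum_prod_type_right]
        simp only [mul_ite, mul_zero, Finset.sum_ite_eq, Finset.mem_univ, if_true]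
        split_ifs <;> simp
      rw [t1, t2, t3, t4]
      by_cases hP : P₁ x₁ y₁
      · rw [e2]
        simp only [if_pos hP, Matrix.add_apply, Matrix.mul_apply]
        ring
      · simp only [if_neg hP]
        ring
    · intro x y h
      simp only [Matrix.of_apply] at h
      by_cases hP : P₁ x.1 y.1
      · rw [if_pos hP] at h
        exact ⟨hP, hS' _ _ _ h⟩
      · rw [if_neg hP] at h
        exact absurd rfl h

end transport

end Pool.Agent.Lib.MP_d64ee4_lc
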