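import Mathlib

set_option autoImplicit false
set_option linter.unusedSectionVars false

/-!
# Counting lemmas: Hamming balls and concentration of linear functionals of digits
-/

namespace Pool.Agent.Lib.MP_d64ee4_lc

open Finset

section ball

variable {ι : Type*} [Fintype ι] [DecidableEq ι] {β : ι → Type*} [∀ i, Fintype (β i)]
  [∀ i, DecidableEq (β i)]

lemma sum_exp_hammingDist (x : ∀ i, β i) (L : ℝ) :
    ∑ y : ∀ i, β i, Real.exp (-(L * (hammingDist x y : ℝ))) =
      ∏ i, (1 + Real.exp (-L) * ((Fintype.card (β i) : ℝ) - 1)) := by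
  have h1 : ∀ i, (1 + Real.exp (-L) * ((Fintype.card (β i) : ℝ) - 1)) =
      ∑ b : β i, (if x i = b then 1 else Real.exp (-L)) := by
    intro i
    rw [← Finset.add_sum_erase Finset.univ _ (Finset.mem_univ (x i))]
    simp only [if_true]
    congr 1
    rw [Finset.sum_congr rfl (g := fun _ => Real.exp (-L))]
    · rw [Finset.sum_const, Finset.card_erase_of_mem (Finset.mem_univ _), Finset.card_univ,
        nsmul_eq_mul, mul_comm]
      congr 1
      have : 0 < Fintype.card (β i) := Fintype.card_pos_iff.mpr ⟨x i⟩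
      rw [Nat.cast_sub (by omega)]
      simp
    · intro b hb
      rw [if_neg]
      intro h
      exact (Finset.mem_erase.mp hb).1 h.symm
  simp_rw [h1]
  rw [Finset.prod_univ_sum]
  rw [Fintype.piFinset_univ]
  refine Finset.sum_congr rfl (fun y _ => ?_)
  rw [Finset.prod_ite]
  simp only [Finset.prod_const_one, one_mul, Finset.prod_const]
  rw [← Real.exp_nat_mul]
  congr 1
  unfold hammingDist
  ring

lemma card_ball_le (x : ∀ i, β i) (L ρ D : ℝ) (hL : 0 ≤ L) (hD : ∀ i, (Fintype.card (β i) : ℝ) ≤ D) :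
    ((Finset.univ.filter fun y : ∀ i, β i => (hammingDist x y : ℝ) ≤ ρ).card : ℝ) ≤
      Real.exp (L * ρ + Real.exp (-L) * D * (Fintype.card ι : ℝ)) := by
  have h1 : ((Finset.univ.filter fun y : ∀ i, β i => (hammingDist x y : ℝ) ≤ ρ).card : ℝ) *
      Real.exp (-(L * ρ)) ≤ ∏ i, (1 + Real.exp (-L) * ((Fintype.card (β i) : ℝ) - 1)) := by
    rw [← sum_exp_hammingDist x L]
    calc ((Finset.univ.filter fun y : ∀ i, β i => (hammingDist x y : ℝ) ≤ ρ).card : ℝ) *
        Real.exp (-(L * ρ))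
        = ∑ y ∈ Finset.univ.filter (fun y : ∀ i, β i => (hammingDist x y : ℝ) ≤ ρ),
            Real.exp (-(L * ρ)) := by simp
      _ ≤ ∑ y ∈ Finset.univ.filter (fun y : ∀ i, β i => (hammingDist x y : ℝ) ≤ ρ),
            Real.exp (-(L * (hammingDist x y : ℝ))) := by
          refine Finset.sum_le_sum (fun y hy => ?_)
          simp only [Finset.mem_filter, Finset.mem_univ, true_and] at hy
          apply Real.exp_le_exp.mpr
          have := mul_le_mul_of_nonneg_left hy hL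
          linarith
      _ ≤ ∑ y : ∀ i, β i, Real.exp (-(L * (hammingDist x y : ℝ))) :=
          Finset.sum_le_sum_of_subset_of_nonneg (Finset.filter_subset _ _)
            (fun _ _ _ => (Real.exp_pos _).le)
  have h2 : ∏ i, (1 + Real.exp (-L) * ((Fintype.card (β i) : ℝ) - 1)) ≤
      Real.exp (Real.exp (-L) * D * (Fintype.card ι : ℝ)) := by
    have : Real.exp (Real.exp (-L) * D * (Fintype.card ι : ℝ)) =
        ∏ _i : ι, Real.exp (Real.exp (-L) * D) := by
      rw [Finset.prod_const, ← Real.exp_nat_mul, Finset.card_univ]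
      congr 1; ring
    rw [this]
    refine Finset.prod_le_prod (fun i _ => ?_) (fun i _ => ?_)
    · have : (1 : ℝ) ≤ Fintype.card (β i) := by
        exact_mod_cast Fintype.card_pos_iff.mpr ⟨x i⟩
      have := (Real.exp_pos (-L)).le
      nlinarith
    · have h3 := Real.add_one_le_exp (Real.exp (-L) * D)
      have h4 := hD i
      have h5 := (Real.exp_pos (-L)).le
      nlinarith
  have h3 := h1.trans h2
  rw [Real.exp_add]
  have h4 : Real.exp (-(L * ρ)) * Real.exp (L * ρ) = 1 := by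
    rw [← Real.exp_add]; simp
  calc ((Finset.univ.filter fun y : ∀ i, β i => (hammingDist x y : ℝ) ≤ ρ).card : ℝ)
      = ((Finset.univ.filter fun y : ∀ i, β i => (hammingDist x y : ℝ) ≤ ρ).card : ℝ) *
        Real.exp (-(L * ρ)) * Real.exp (L * ρ) := by rw [mul_assoc, h4, mul_one]
    _ ≤ Real.exp (Real.exp (-L) * D * (Fintype.card ι : ℝ)) * Real.exp (L * ρ) :=
        mul_le_mul_of_nonneg_right h3 (Real.exp_pos _).le
    _ = _ := mul_comm _ _

end ball

section conc

lemma sum_exp_fin_le (d : ℕ) (s : ℝ) :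
    ∑ j : Fin d, Real.exp (s * ((j : ℝ) - ((d : ℝ) - 1) / 2)) ≤
      d * Real.exp (s ^ 2 * ((d : ℝ) - 1) ^ 2 / 8) := by
  have h1 : ∑ j : Fin d, Real.exp (s * ((j : ℝ) - ((d : ℝ) - 1) / 2)) =
      ∑ j : Fin d, Real.exp (-(s * ((j : ℝ) - ((d : ℝ) - 1) / 2))) := by
    rw [← Equiv.sum_comp Fin.revPerm]
    refine Finset.sum_congr rfl (fun j _ => ?_)
    congr 1
    rw [Fin.revPerm_apply, Fin.val_rev]
    have : (j : ℕ) + 1 ≤ d := j.2
    rw [Nat.cast_sub this]
    push_cast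
    ring
  have h2 : ∑ j : Fin d, Real.exp (s * ((j : ℝ) - ((d : ℝ) - 1) / 2)) =
      ∑ j : Fin d, Real.cosh (s * ((j : ℝ) - ((d : ℝ) - 1) / 2)) := by
    simp_rw [Real.cosh_eq]
    rw [← Finset.sum_div, Finset.sum_add_distrib, ← h1]
    ring
  rw [h2]
  calc ∑ j : Fin d, Real.cosh (s * ((j : ℝ) - ((d : ℝ) - 1) / 2))
      ≤ ∑ _j : Fin d, Real.exp (s ^ 2 * ((d : ℝ) - 1) ^ 2 / 8) := by
        refine Finset.sum_le_sum (fun j _ => ?_)
        refine (Real.cosh_le_exp_half_sq _).trans (Real.exp_le_exp.mpr ?_)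
        have hj : (j : ℝ) ≤ (d : ℝ) - 1 := by
          have : (j : ℕ) + 1 ≤ d := j.2
          have : ((j : ℕ) : ℝ) + 1 ≤ d := by exact_mod_cast this
          linarith
        have hj0 : (0 : ℝ) ≤ (j : ℝ) := Nat.cast_nonneg _
        have h3 : ((j : ℝ) - ((d : ℝ) - 1) / 2) ^ 2 ≤ (((d : ℝ) - 1) / 2) ^ 2 := by
          apply sq_le_sq'
          · linarith
          · linarith
        nlinarith [sq_nonneg s]
    _ = d * Real.exp (s ^ 2 * ((d : ℝ) - 1) ^ 2 / 8) := by simp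

variable {ι : Type*} [Fintype ι] [DecidableEq ι] {d : ι → ℕ}

lemma sum_exp_linear_le (w : ι → ℝ) (B t : ℝ) (hd : ∀ p, 1 ≤ d p)
    (hB : ∀ p, |w p| * ((d p : ℝ) - 1) ≤ B) :
    ∑ j : ∀ p, Fin (d p), Real.exp (t * ∑ p, w p * ((j p : ℝ) - ((d p : ℝ) - 1) / 2)) ≤
      (∏ p, (d p : ℝ)) * Real.exp (Fintype.card ι * (t ^ 2 * B ^ 2 / 8)) := by
  have h1 : ∀ j : ∀ p, Fin (d p),
      Real.exp (t * ∑ p, w p * ((j p : ℝ) - ((d p : ℝ) - 1) / 2)) =
      ∏ p, Real.exp ((t * w p) * ((j p : ℝ) - ((d p : ℝ) - 1) / 2)) := by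
    intro j
    rw [← Real.exp_sum, Finset.mul_sum]
    congr 1
    refine Finset.sum_congr rfl (fun p _ => by ring)
  simp_rw [h1]
  have h2 := Finset.prod_univ_sum (t := fun p : ι => (Finset.univ : Finset (Fin (d p))))
    (f := fun p j => Real.exp ((t * w p) * ((j : ℝ) - ((d p : ℝ) - 1) / 2)))
  rw [Fintype.piFinset_univ] at h2
  rw [← h2]
  have h3 : (∏ p, (d p : ℝ)) * Real.exp (Fintype.card ι * (t ^ 2 * B ^ 2 / 8)) =
      ∏ p, ((d p : ℝ) * Real.exp (t ^ 2 * B ^ 2 / 8)) := by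
    rw [Finset.prod_mul_distrib, Finset.prod_const, ← Real.exp_nat_mul, Finset.card_univ]
  rw [h3]
  refine Finset.prod_le_prod (fun p _ => Finset.sum_nonneg (fun _ _ => (Real.exp_pos _).le))
    (fun p _ => ?_)
  refine (sum_exp_fin_le (d p) (t * w p)).trans ?_
  refine mul_le_mul_of_nonneg_left (Real.exp_le_exp.mpr ?_) (Nat.cast_nonneg _)
  have h4 : (w p) ^ 2 * ((d p : ℝ) - 1) ^ 2 ≤ B ^ 2 := by
    have h5 : (w p) ^ 2 * ((d p : ℝ) - 1) ^ 2 = (|w p| * ((d p : ℝ) - 1)) ^ 2 := by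
      rw [mul_pow, sq_abs]
    rw [h5]
    have h6 : (0 : ℝ) ≤ (d p : ℝ) - 1 := by
      have : (1 : ℝ) ≤ d p := by exact_mod_cast hd p
      linarith
    exact pow_le_pow_left₀ (mul_nonneg (abs_nonneg _) h6) (hB p) 2
  nlinarith [sq_nonneg t]

/-- upper tail -/
lemma card_high_le (w : ι → ℝ) (B τ : ℝ) (hτ : 0 ≤ τ)
    (hB : ∀ p, |w p| * ((d p : ℝ) - 1) ≤ B) :
    ((Finset.univ.filter fun j : ∀ p, Fin (d p) =>
      τ < ∑ p, w p * ((j p : ℝ) - ((d p : ℝ) - 1) / 2)).card : ℝ) ≤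
      (∏ p, (d p : ℝ)) * Real.exp (-(2 * τ ^ 2 / (Fintype.card ι * B ^ 2))) := by
  by_cases hd : ∀ p, 1 ≤ d p
  swap
  · push Not at hd
    obtain ⟨p, hp⟩ := hd
    have hp0 : d p = 0 := by omega
    have : IsEmpty (∀ p, Fin (d p)) := ⟨fun f => by
      have := f p
      rw [hp0] at this
      exact this.elim0⟩
    rw [Finset.eq_empty_of_isEmpty (Finset.univ.filter fun j : ∀ p, Fin (d p) =>
      τ < ∑ p, w p * ((j p : ℝ) - ((d p : ℝ) - 1) / 2))]
    simp only [Finset.card_empty, Nat.cast_zero]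
    positivity
  by_cases h0 : (Fintype.card ι : ℝ) * B ^ 2 = 0
  · rw [h0, div_zero, neg_zero, Real.exp_zero, mul_one]
    calc ((Finset.univ.filter fun j : ∀ p, Fin (d p) =>
      τ < ∑ p, w p * ((j p : ℝ) - ((d p : ℝ) - 1) / 2)).card : ℝ)
        ≤ ((Finset.univ : Finset (∀ p, Fin (d p))).card : ℝ) := by
          exact_mod_cast Finset.card_le_card (Finset.filter_subset _ _)
      _ = ∏ p, (d p : ℝ) := by
          rw [Finset.card_univ, Fintype.card_pi]
          simp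
  · set t : ℝ := 4 * τ / (Fintype.card ι * B ^ 2) with ht
    have hn : (0 : ℝ) < (Fintype.card ι : ℝ) * B ^ 2 :=
      lt_of_le_of_ne (by positivity) (Ne.symm h0)
    have ht0 : 0 ≤ t := by positivity
    have h1 : ((Finset.univ.filter fun j : ∀ p, Fin (d p) =>
      τ < ∑ p, w p * ((j p : ℝ) - ((d p : ℝ) - 1) / 2)).card : ℝ) * Real.exp (t * τ) ≤
      (∏ p, (d p : ℝ)) * Real.exp (Fintype.card ι * (t ^ 2 * B ^ 2 / 8)) := by
      refine le_trans ?_ (sum_exp_linear_le w B t hd hB)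
      calc ((Finset.univ.filter fun j : ∀ p, Fin (d p) =>
          τ < ∑ p, w p * ((j p : ℝ) - ((d p : ℝ) - 1) / 2)).card : ℝ) * Real.exp (t * τ)
          = ∑ j ∈ (Finset.univ.filter fun j : ∀ p, Fin (d p) =>
              τ < ∑ p, w p * ((j p : ℝ) - ((d p : ℝ) - 1) / 2)), Real.exp (t * τ) := by simp
        _ ≤ ∑ j ∈ (Finset.univ.filter fun j : ∀ p, Fin (d p) =>
              τ < ∑ p, w p * ((j p : ℝ) - ((d p : ℝ) - 1) / 2)),
              Real.exp (t * ∑ p, w p * ((j p : ℝ) - ((d p : ℝ) - 1) / 2)) := by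
            refine Finset.sum_le_sum (fun j hj => ?_)
            simp only [Finset.mem_filter, Finset.mem_univ, true_and] at hj
            exact Real.exp_le_exp.mpr (mul_le_mul_of_nonneg_left hj.le ht0)
        _ ≤ _ := Finset.sum_le_sum_of_subset_of_nonneg (Finset.filter_subset _ _)
            (fun _ _ _ => (Real.exp_pos _).le)
    have h2 : Real.exp (t * τ) * Real.exp (-(t * τ)) = 1 := by
      rw [← Real.exp_add]; simp
    calc ((Finset.univ.filter fun j : ∀ p, Fin (d p) =>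
          τ < ∑ p, w p * ((j p : ℝ) - ((d p : ℝ) - 1) / 2)).card : ℝ)
        = ((Finset.univ.filter fun j : ∀ p, Fin (d p) =>
          τ < ∑ p, w p * ((j p : ℝ) - ((d p : ℝ) - 1) / 2)).card : ℝ) *
            Real.exp (t * τ) * Real.exp (-(t * τ)) := by rw [mul_assoc, h2, mul_one]
      _ ≤ (∏ p, (d p : ℝ)) * Real.exp (Fintype.card ι * (t ^ 2 * B ^ 2 / 8)) *
            Real.exp (-(t * τ)) := mul_le_mul_of_nonneg_right h1 (Real.exp_pos _).le
      _ = (∏ p, (d p : ℝ)) * Real.exp (-(2 * τ ^ 2 / (Fintype.card ι * B ^ 2))) := by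
          rw [mul_assoc, ← Real.exp_add]
          congr 2
          rw [ht]
          have h3 : (Fintype.card ι : ℝ) ≠ 0 := left_ne_zero_of_mul h0
          have h4 : B ^ 2 ≠ 0 := right_ne_zero_of_mul h0
          have h5 : B ≠ 0 := fun h => h4 (by rw [h]; simp)
          field_simp
          ring

/-- lower tail -/
lemma card_low_le (w : ι → ℝ) (B τ : ℝ) (hτ : 0 ≤ τ)
    (hB : ∀ p, |w p| * ((d p : ℝ) - 1) ≤ B) :
    ((Finset.univ.filter fun j : ∀ p, Fin (d p) =>
      ∑ p, w p * ((j p : ℝ) - ((d p : ℝ) - 1) / 2) < -τ).card : ℝ) ≤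
      (∏ p, (d p : ℝ)) * Real.exp (-(2 * τ ^ 2 / (Fintype.card ι * B ^ 2))) := by
  have h := card_high_le (d := d) (fun p => - w p) B τ hτ (fun p => by
    simpa [abs_neg] using hB p)
  refine le_trans (le_of_eq ?_) h
  congr 2
  ext j
  simp only [Finset.mem_filter, Finset.mem_univ, true_and, neg_mul, Finset.sum_neg_distrib]
  constructor <;> intro h <;> linarith

end conc

end Pool.Agent.Lib.MP_d64ee4_lc
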