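import Mathlib

set_option autoImplicit false
set_option linter.unusedSectionVars false

/-!
# Low rank plus sparse decompositions

`DecR M r s`: the matrix `M` is the sum of a matrix that factors through `Fin n` with `n ≤ r`
and of a matrix with at most `s` nonzero entries in every row and column.
`StrR M r s`: the uniform version for a family `M` of matrices.
-/

namespace Pool.Agent.Lib.MP_d64ee4_lc

open Matrix

open scoped Classical in
/-- A relation with at most `s` related partners on each side. -/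
def RelLE {I J : Type*} [Fintype I] [Fintype J] (P : I → J → Prop) (s : ℝ) : Prop :=
  (∀ i, ((Finset.univ.filter fun j => P i j).card : ℝ) ≤ s) ∧
    (∀ j, ((Finset.univ.filter fun i => P i j).card : ℝ) ≤ s)

section rel

variable {I J L : Type*} [Fintype I] [Fintype J] [Fintype L]

lemma RelLE.mono {P Q : I → J → Prop} {s t : ℝ} (h : RelLE P s) (hPQ : ∀ i j, Q i j → P i j)
    (hst : s ≤ t) : RelLE Q t := by
  classical
  constructor
  · intro i
    refine le_trans ?_ (le_trans (h.1 i) hst)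
    exact_mod_cast Finset.card_le_card (fun j hj => by
      simp only [Finset.mem_filter, Finset.mem_univ, true_and] at hj ⊢
      exact hPQ i j hj)
  · intro j
    refine le_trans ?_ (le_trans (h.2 j) hst)
    exact_mod_cast Finset.card_le_card (fun i hi => by
      simp only [Finset.mem_filter, Finset.mem_univ, true_and] at hi ⊢
      exact hPQ i j hi)

lemma RelLE.swap {P : I → J → Prop} {s : ℝ} (h : RelLE P s) : RelLE (fun j i => P i j) s :=
  ⟨h.2, h.1⟩

lemma card_comp_le {P : I → J → Prop} {Q : J → L → Prop} {s t : ℝ} (i : I)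
    [DecidablePred fun l => ∃ j, P i j ∧ Q j l] [DecidablePred (P i)]
    [∀ j, DecidablePred (Q j)]
    (hs : ((Finset.univ.filter fun j => P i j).card : ℝ) ≤ s)
    (ht : ∀ j, ((Finset.univ.filter fun l => Q j l).card : ℝ) ≤ t) (ht0 : 0 ≤ t) :
    ((Finset.univ.filter fun l => ∃ j, P i j ∧ Q j l).card : ℝ) ≤ s * t := by
  classical
  have hsub : (Finset.univ.filter fun l => ∃ j, P i j ∧ Q j l) ⊆
      (Finset.univ.filter fun j => P i j).biUnion (fun j => Finset.univ.filter fun l => Q j l) := by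
    intro l hl
    simp only [Finset.mem_filter, Finset.mem_univ, true_and] at hl
    obtain ⟨j, hj, hl⟩ := hl
    simp only [Finset.mem_biUnion, Finset.mem_filter, Finset.mem_univ, true_and]
    exact ⟨j, hj, hl⟩
  calc ((Finset.univ.filter fun l => ∃ j, P i j ∧ Q j l).card : ℝ)
      ≤ (((Finset.univ.filter fun j => P i j).biUnion
          (fun j => Finset.univ.filter fun l => Q j l)).card : ℝ) := by
        exact_mod_cast Finset.card_le_card hsub
    _ ≤ ∑ j ∈ Finset.univ.filter (fun j => P i j), ((Finset.univ.filter fun l => Q j l).card : ℝ) := by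
        exact_mod_cast Finset.card_biUnion_le
    _ ≤ ∑ _j ∈ Finset.univ.filter (fun j => P i j), t := Finset.sum_le_sum (fun j _ => ht j)
    _ = ((Finset.univ.filter fun j => P i j).card : ℝ) * t := by simp
    _ ≤ s * t := mul_le_mul_of_nonneg_right hs ht0

lemma RelLE.nonneg_left {P : I → J → Prop} {s : ℝ} (h : RelLE P s) (i : I) : 0 ≤ s :=
  le_trans (Nat.cast_nonneg _) (h.1 i)

lemma RelLE.comp {P : I → J → Prop} {Q : J → L → Prop} {s t : ℝ} (hP : RelLE P s)
    (hQ : RelLE Q t) (hs : 0 ≤ s) (ht : 0 ≤ t) : RelLE (fun i l => ∃ j, P i j ∧ Q j l) (s * t) := by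
  classical
  constructor
  · intro i
    have := card_comp_le (P := P) (Q := Q) i (by convert hP.1 i) (fun j => by convert hQ.1 j) ht
    convert this
  · intro l
    have := card_comp_le (P := fun l j => Q j l) (Q := fun j i => P i j) l (by convert hQ.2 l)
      (fun j => by convert hP.2 j) hs
    rw [mul_comm] at this
    have h2 : (fun i => ∃ j, P i j ∧ Q j l) = (fun i => ∃ j, Q j l ∧ P i j) := by
      funext i
      simp only [and_comm]
    simp only [h2]
    convert this

end rel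

variable {K : Type*} [Field K]

section dec

variable {I J L : Type*} [Fintype I] [Fintype J] [Fintype L]

/-- low rank (through factorisation) plus sparse -/
def DecR (M : Matrix I J K) (r s : ℝ) : Prop :=
  ∃ (n : ℕ) (Q : Matrix I (Fin n) K) (X : Matrix (Fin n) J K) (E : Matrix I J K),
    M = Q * X + E ∧ (n : ℝ) ≤ r ∧ RelLE (fun i j => E i j ≠ 0) s

/-- uniform low rank plus sparse structure of a family of matrices -/
def StrR {Z : Type*} (M : Z → Matrix I J K) (r s : ℝ) : Prop :=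
  ∃ (n₁ n₂ : ℕ) (Q : Matrix I (Fin n₁) K) (Q' : Matrix (Fin n₂) J K) (P : I → J → Prop),
    ((n₁ + n₂ : ℕ) : ℝ) ≤ r ∧ RelLE P s ∧
    ∀ z, ∃ (X : Matrix (Fin n₁) J K) (Y : Matrix I (Fin n₂) K) (S : Matrix I J K),
      M z = Q * X + Y * Q' + S ∧ ∀ i j, S i j ≠ 0 → P i j

lemma DecR.of_fintype {R : Type*} [Fintype R] {M : Matrix I J K} {r s : ℝ}
    (Q : Matrix I R K) (X : Matrix R J K) (E : Matrix I J K) (hM : M = Q * X + E)
    (hr : (Fintype.card R : ℝ) ≤ r) (hs : RelLE (fun i j => E i j ≠ 0) s) : DecR M r s := by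
  classical
  let e := Fintype.equivFin R
  refine ⟨Fintype.card R, Q.submatrix id e.symm, X.submatrix e.symm id, E, ?_, hr, hs⟩
  rw [hM, Matrix.submatrix_mul_equiv]
  simp

lemma StrR.of_fintype {Z : Type*} {R R' : Type*} [Fintype R] [Fintype R']
    {M : Z → Matrix I J K} {r s : ℝ}
    (Q : Matrix I R K) (Q' : Matrix R' J K) (P : I → J → Prop)
    (hr : ((Fintype.card R + Fintype.card R' : ℕ) : ℝ) ≤ r) (hs : RelLE P s)
    (h : ∀ z, ∃ (X : Matrix R J K) (Y : Matrix I R' K) (S : Matrix I J K),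
      M z = Q * X + Y * Q' + S ∧ ∀ i j, S i j ≠ 0 → P i j) : StrR M r s := by
  classical
  let e := Fintype.equivFin R
  let e' := Fintype.equivFin R'
  refine ⟨Fintype.card R, Fintype.card R', Q.submatrix id e.symm, Q'.submatrix e'.symm id, P,
    hr, hs, ?_⟩
  intro z
  obtain ⟨X, Y, S, h1, h2⟩ := h z
  refine ⟨X.submatrix e.symm id, Y.submatrix id e'.symm, S, ?_, h2⟩
  rw [h1, Matrix.submatrix_mul_equiv, Matrix.submatrix_mul_equiv]
  simp

lemma DecR.mono {M : Matrix I J K} {r s r' s' : ℝ} (h : DecR M r s) (hr : r ≤ r') (hs : s ≤ s') :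
    DecR M r' s' := by
  obtain ⟨n, Q, X, E, h1, h2, h3⟩ := h
  exact ⟨n, Q, X, E, h1, h2.trans hr, h3.mono (fun _ _ h => h) hs⟩

lemma StrR.mono {Z : Type*} {M : Z → Matrix I J K} {r s r' s' : ℝ} (h : StrR M r s)
    (hr : r ≤ r') (hs : s ≤ s') : StrR M r' s' := by
  obtain ⟨n₁, n₂, Q, Q', P, h1, h2, h3⟩ := h
  exact ⟨n₁, n₂, Q, Q', P, h1.trans hr, h2.mono (fun _ _ h => h) hs, h3⟩

lemma DecR.transpose {M : Matrix I J K} {r s : ℝ} (h : DecR M r s) : DecR Mᵀ r s := by
  obtain ⟨n, Q, X, E, h1, h2, h3⟩ := h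
  refine ⟨n, Xᵀ, Qᵀ, Eᵀ, ?_, h2, h3.swap⟩
  rw [h1, Matrix.transpose_add, Matrix.transpose_mul]

lemma StrR.transpose {Z : Type*} {M : Z → Matrix I J K} {r s : ℝ} (h : StrR M r s) :
    StrR (fun z => (M z)ᵀ) r s := by
  obtain ⟨n₁, n₂, Q, Q', P, h1, h2, h3⟩ := h
  refine ⟨n₂, n₁, Q'ᵀ, Qᵀ, fun j i => P i j, by rwa [add_comm], h2.swap, ?_⟩
  intro z
  obtain ⟨X, Y, S, h4, h5⟩ := h3 z
  refine ⟨Yᵀ, Xᵀ, Sᵀ, ?_, fun j i h => h5 i j h⟩
  show (M z)ᵀ = _
  rw [h4, Matrix.transpose_add, Matrix.transpose_add, Matrix.transpose_mul, Matrix.transpose_mul,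
    add_comm (Xᵀ * Qᵀ)]

lemma mul_ne_zero_exists {A : Matrix I J K} {B : Matrix J L K} {i : I} {l : L}
    (h : (A * B) i l ≠ 0) : ∃ j, A i j ≠ 0 ∧ B j l ≠ 0 := by
  by_contra hcon
  push Not at hcon
  apply h
  rw [Matrix.mul_apply]
  refine Finset.sum_eq_zero (fun j _ => ?_)
  by_cases h1 : A i j = 0
  · simp [h1]
  · simp [hcon j h1]

lemma DecR.mul {A : Matrix I J K} {B : Matrix J L K} {r₁ s₁ r₂ s₂ : ℝ} (hA : DecR A r₁ s₁)
    (hB : DecR B r₂ s₂) (hs₁ : 0 ≤ s₁) (hs₂ : 0 ≤ s₂) : DecR (A * B) (r₁ + r₂) (s₁ * s₂) := by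
  obtain ⟨n, Q, X, E, h1, h2, h3⟩ := hA
  obtain ⟨n', Q', X', E', h1', h2', h3'⟩ := hB
  refine DecR.of_fintype (R := Fin n ⊕ Fin n') (Matrix.fromCols Q (E * Q'))
    (Matrix.fromRows (X * B) X') (E * E') ?_ ?_ ?_
  · rw [Matrix.fromCols_mul_fromRows]
    conv_lhs => rw [h1, Matrix.add_mul]
    conv_lhs => rw [show E * B = E * (Q' * X' + E') by rw [← h1']]
    rw [Matrix.mul_add, Matrix.mul_assoc, Matrix.mul_assoc, add_assoc]
  · simp only [Fintype.card_sum, Fintype.card_fin, Nat.cast_add]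
    linarith
  · exact (h3.comp h3' hs₁ hs₂).mono (fun i l h => mul_ne_zero_exists h) le_rfl

lemma StrR.mul_left {Z : Type*} {A : Matrix I J K} {M : Z → Matrix J L K} {r₁ s₁ r₂ s₂ : ℝ}
    (hA : DecR A r₁ s₁) (hM : StrR M r₂ s₂) (hs₁ : 0 ≤ s₁) (hs₂ : 0 ≤ s₂) :
    StrR (fun z => A * M z) (r₁ + r₂) (s₁ * s₂) := by
  obtain ⟨n, Q, X, E, h1, h2, h3⟩ := hA
  obtain ⟨n₁, n₂, Q₁, Q₂, P, h4, h5, h6⟩ := hM
  refine StrR.of_fintype (R := Fin n ⊕ Fin n₁) (R' := Fin n₂) (Matrix.fromCols Q (E * Q₁)) Q₂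
    (fun i l => ∃ j, E i j ≠ 0 ∧ P j l) ?_ (h3.comp h5 hs₁ hs₂) ?_
  · simp only [Fintype.card_sum, Fintype.card_fin]
    push_cast at h4 ⊢
    linarith
  · intro z
    obtain ⟨X₁, Y, S, h7, h8⟩ := h6 z
    refine ⟨Matrix.fromRows (X * M z) X₁, E * Y, E * S, ?_, ?_⟩
    · rw [Matrix.fromCols_mul_fromRows]
      conv_lhs => rw [h1, Matrix.add_mul]
      conv_lhs => rw [show E * M z = E * (Q₁ * X₁ + Y * Q₂ + S) by rw [← h7]]
      simp only [Matrix.mul_add, Matrix.mul_assoc, add_assoc]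
    · intro i l h
      obtain ⟨j, hj, hl⟩ := mul_ne_zero_exists h
      exact ⟨j, hj, h8 j l hl⟩

lemma StrR.mul_right {Z : Type*} {B : Matrix J L K} {M : Z → Matrix I J K} {r₁ s₁ r₂ s₂ : ℝ}
    (hB : DecR B r₁ s₁) (hM : StrR M r₂ s₂) (hs₁ : 0 ≤ s₁) (hs₂ : 0 ≤ s₂) :
    StrR (fun z => M z * B) (r₁ + r₂) (s₁ * s₂) := by
  have := (StrR.mul_left hB.transpose hM.transpose hs₁ hs₂).transpose
  simpa [Matrix.transpose_mul] using this

/-- restriction of rows and columns along injective maps -/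
lemma RelLE.submatrix {I' J' : Type*} [Fintype I'] [Fintype J'] {P : I → J → Prop} {s : ℝ}
    (h : RelLE P s) (f : I' → I) (g : J' → J) (hf : Function.Injective f)
    (hg : Function.Injective g) : RelLE (fun i j => P (f i) (g j)) s := by
  classical
  constructor
  · intro i
    refine le_trans ?_ (h.1 (f i))
    have : (Finset.univ.filter fun j => P (f i) (g j)).card =
        ((Finset.univ.filter fun j => P (f i) (g j)).image g).card :=
      (Finset.card_image_of_injective _ hg).symm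
    rw [show ((Finset.univ.filter fun j => P (f i) (g j)).card : ℝ) =
      (((Finset.univ.filter fun j => P (f i) (g j)).image g).card : ℝ) by exact_mod_cast this]
    exact_mod_cast Finset.card_le_card (fun j hj => by
      simp only [Finset.mem_image, Finset.mem_filter, Finset.mem_univ, true_and] at hj ⊢
      obtain ⟨a, ha, rfl⟩ := hj
      exact ha)
  · intro j
    refine le_trans ?_ (h.2 (g j))
    have : (Finset.univ.filter fun i => P (f i) (g j)).card =
        ((Finset.univ.filter fun i => P (f i) (g j)).image f).card :=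
      (Finset.card_image_of_injective _ hf).symm
    rw [show ((Finset.univ.filter fun i => P (f i) (g j)).card : ℝ) =
      (((Finset.univ.filter fun i => P (f i) (g j)).image f).card : ℝ) by exact_mod_cast this]
    exact_mod_cast Finset.card_le_card (fun i hi => by
      simp only [Finset.mem_image, Finset.mem_filter, Finset.mem_univ, true_and] at hi ⊢
      obtain ⟨a, ha, rfl⟩ := hi
      exact ha)

lemma DecR.submatrix {I' J' : Type*} [Fintype I'] [Fintype J'] {M : Matrix I J K} {r s : ℝ}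
    (h : DecR M r s) (f : I' → I) (g : J' → J) (hf : Function.Injective f)
    (hg : Function.Injective g) : DecR (M.submatrix f g) r s := by
  obtain ⟨n, Q, X, E, h1, h2, h3⟩ := h
  refine ⟨n, Q.submatrix f id, X.submatrix id g, E.submatrix f g, ?_, h2, ?_⟩
  · rw [h1]
    ext i j
    simp [Matrix.mul_apply]
  · exact h3.submatrix f g hf hg

lemma StrR.submatrix {Z : Type*} {I' J' : Type*} [Fintype I'] [Fintype J']
    {M : Z → Matrix I J K} {r s : ℝ}
    (h : StrR M r s) (f : I' → I) (g : J' → J) (hf : Function.Injective f)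
    (hg : Function.Injective g) : StrR (fun z => (M z).submatrix f g) r s := by
  obtain ⟨n₁, n₂, Q, Q', P, h1, h2, h3⟩ := h
  refine ⟨n₁, n₂, Q.submatrix f id, Q'.submatrix id g, fun i j => P (f i) (g j), h1,
    h2.submatrix f g hf hg, ?_⟩
  intro z
  obtain ⟨X, Y, S, h4, h5⟩ := h3 z
  refine ⟨X.submatrix id g, Y.submatrix f id, S.submatrix f g, ?_, fun i j h => h5 _ _ h⟩
  show (M z).submatrix f g = _
  rw [h4]
  ext i j
  simp [Matrix.mul_apply]

/-- restrict the parameter set -/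
lemma StrR.comp_param {Z Z' : Type*} {M : Z → Matrix I J K} {r s : ℝ}
    (h : StrR M r s) (φ : Z' → Z) : StrR (fun z => M (φ z)) r s := by
  obtain ⟨n₁, n₂, Q, Q', P, h1, h2, h3⟩ := h
  exact ⟨n₁, n₂, Q, Q', P, h1, h2, fun z => h3 (φ z)⟩

/-- the trivial structure -/
lemma StrR.trivial {Z : Type*} (M : Z → Matrix I J K) {s : ℝ} (h1 : (Fintype.card I : ℝ) ≤ s)
    (h2 : (Fintype.card J : ℝ) ≤ s) : StrR M 0 s := by
  classical
  refine ⟨0, 0, 0, 0, fun _ _ => True, by simp, ⟨fun i => ?_, fun j => ?_⟩, fun z =>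
    ⟨0, 0, M z, by simp, fun _ _ _ => True.intro⟩⟩
  · simpa using h2
  · simpa using h1

end dec

end Pool.Agent.Lib.MP_d64ee4_lc
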