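import Pool.Agent.Lib.MP_d64ee4_lc.Tower2

set_option autoImplicit false
set_option linter.unusedSectionVars false

/-!
# Groups with a digit representation
-/

namespace Pool.Agent.Lib.MP_d64ee4_lc

open Matrix

universe u v

/-- the matrix `f (x + y)` -/
def hank {G K : Type*} [Add G] (f : G → K) : Matrix G G K := Matrix.of fun x y => f (x + y)

@[simp] lemma hank_apply {G K : Type*} [Add G] (f : G → K) (x y : G) : hank f x y = f (x + y) := rfl

section interp

variable {K : Type*} [Field K] [Fintype K] [DecidableEq K]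

lemma interp_one : ∃ c : Fin (Fintype.card K) → K → K, ∀ w z : Fin (Fintype.card K),
    ∑ α : K, c w α * α ^ (z : ℕ) = if w = z then 1 else 0 := by
  classical
  let e := (Fintype.equivFin K).symm
  let W : Matrix (Fin (Fintype.card K)) (Fin (Fintype.card K)) K := Matrix.vandermonde (fun i => e i)
  have hdet : W.det ≠ 0 := Matrix.det_vandermonde_ne_zero_iff.mpr e.injective
  have hinv : W⁻¹ * W = 1 := Matrix.nonsing_inv_mul W (isUnit_iff_ne_zero.mpr hdet)
  refine ⟨fun w α => W⁻¹ w (e.symm α), fun w z => ?_⟩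
  have h := congrFun (congrFun hinv w) z
  rw [Matrix.mul_apply, Matrix.one_apply] at h
  rw [← h, ← Equiv.sum_comp e]
  simp [W, Matrix.vandermonde_apply]

lemma interp_multi {P : Type*} [Fintype P] [DecidableEq P] (F : (P → ℕ) → K) :
    ∃ Fh : (P → K) → K, ∀ v : P → ℕ, (∀ p, v p < Fintype.card K) →
      F v = ∑ α : P → K, Fh α * ∏ p, α p ^ v p := by
  obtain ⟨c, hc⟩ := interp_one (K := K)
  refine ⟨fun α => ∑ w : P → Fin (Fintype.card K), F (fun p => (w p : ℕ)) * ∏ p, c (w p) (α p), ?_⟩
  intro v hv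
  let v' : P → Fin (Fintype.card K) := fun p => ⟨v p, hv p⟩
  have h1 : ∀ w : P → Fin (Fintype.card K), ∏ p, (∑ α : K, c (w p) α * α ^ (v p)) =
      if w = v' then 1 else 0 := by
    intro w
    have : ∀ p, ∑ α : K, c (w p) α * α ^ (v p) = if w p = v' p then 1 else 0 := fun p => hc (w p) (v' p)
    simp_rw [this]
    by_cases h : w = v'
    · simp [h]
    · rw [if_neg h]
      obtain ⟨p, hp⟩ := Function.ne_iff.mp h
      exact Finset.prod_eq_zero (Finset.mem_univ p) (by rw [if_neg hp])
  calc F v = ∑ w : P → Fin (Fintype.card K), F (fun p => (w p : ℕ)) * (if w = v' then 1 else 0) := by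
        simp [v']
    _ = ∑ w : P → Fin (Fintype.card K), F (fun p => (w p : ℕ)) *
          ∑ α : P → K, ∏ p, (c (w p) (α p) * α p ^ v p) := by
        refine Finset.sum_congr rfl (fun w _ => ?_)
        rw [← h1 w, Finset.prod_univ_sum, Fintype.piFinset_univ]
    _ = ∑ α : P → K, (∑ w : P → Fin (Fintype.card K), F (fun p => (w p : ℕ)) *
          ∏ p, c (w p) (α p)) * ∏ p, α p ^ v p := by
        simp_rw [Finset.mul_sum, Finset.sum_mul]
        rw [Finset.sum_comm]
        refine Finset.sum_congr rfl (fun α _ => Finset.sum_congr rfl (fun w _ => ?_))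
        rw [Finset.prod_mul_distrib]
        ring

end interp

variable {K : Type u} [Field K]

lemma StrR.diagonal {Z : Type*} {I : Type*} [Fintype I] [DecidableEq I] (D : Z → I → K) :
    StrR (fun z => Matrix.diagonal (D z)) 0 1 := by
  classical
  refine ⟨0, 0, 0, 0, fun i j => i = j, by simp, ⟨fun i => ?_, fun j => ?_⟩, fun z =>
    ⟨0, 0, Matrix.diagonal (D z), by simp, fun i j h => ?_⟩⟩
  · have h : (Finset.univ.filter fun j => i = j).card ≤ 1 := by
      rw [Finset.card_le_one]
      intro a ha b hb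
      simp only [Finset.mem_filter, Finset.mem_univ, true_and] at ha hb
      rw [← ha, ← hb]
    have h' : ((Finset.univ.filter fun j => i = j).card : ℝ) ≤ 1 := by exact_mod_cast h
    convert h'
  · have h : (Finset.univ.filter fun i => i = j).card ≤ 1 := by
      rw [Finset.card_le_one]
      intro a ha b hb
      simp only [Finset.mem_filter, Finset.mem_univ, true_and] at ha hb
      rw [ha, hb]
    have h' : ((Finset.univ.filter fun i => i = j).card : ℝ) ≤ 1 := by exact_mod_cast h
    convert h'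
  · by_contra hcon
    exact h (Matrix.diagonal_apply_ne _ hcon)

/-- A finite abelian group with a digit representation. -/
theorem large_str [Fintype K] (q h : ℕ) (hq : 2 ≤ q) (hK : Fintype.card K = q ^ 2 ^ h)
    (hadd : ∀ x y : K, (x + y) ^ q = x ^ q + y ^ q)
    (α : Fin q → K) (hα : ∀ x : K, x ^ q = x → ∃ l, α l = x)
    (hω : ∀ t < h, ∃ ω : K, ω ^ (q ^ 2 ^ (t + 1)) = ω ∧ ω ^ (q ^ 2 ^ t) ≠ ω)
    {G : Type v} [AddCommGroup G] [Fintype G] (P : Type) [Fintype P] [DecidableEq P] (b : ℕ)
    (hb : 2 * b ≤ q ^ 2 ^ h + 1) (dig : G → P → ℕ) (g : P → G) (hdig : ∀ x p, dig x p < b)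
    (hG : ∀ x, x = ∑ p, dig x p • g p) (τ L : ℝ) (hτ : 0 ≤ τ) (hL : 0 ≤ L) :
    StrR (fun f : G → K => hank f)
      (2 * ((2 * h + 2) * rkB ((q : ℝ) ^ (Fintype.card P * 2 ^ h)) (Fintype.card P * 2 ^ h)
        (6 * ((q : ℝ) - 1)) τ))
      ((spB (Fintype.card P * 2 ^ h) L q τ ^ (2 * h + 2)) ^ 2) := by
  classical
  set Q := q ^ 2 ^ h with hQ
  have hV := tower (K := K) q hq hadd α hα h hω P (P → K) (fun p x => x p)
    (fun p x => by rw [← hQ, ← hK]; exact FiniteField.pow_card _) (fun x y h => h) τ L hτ hL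
  have hlt : ∀ x p, dig x p < Q := fun x p => by
    have := hdig x p
    omega
  -- digit strings
  let J : G → (P × Fin (2 ^ h) → Fin q) := fun x pa =>
    (finFunctionFinEquiv (m := q) (n := 2 ^ h)).symm ⟨dig x pa.1, hlt x pa.1⟩ pa.2
  have hJ : ∀ x p, ∑ a : Fin (2 ^ h), (J x (p, a) : ℕ) * q ^ (a : ℕ) = dig x p := by
    intro x p
    rw [← finFunctionFinEquiv_apply]
    simp only [J]
    rw [show (fun a : Fin (2 ^ h) => (finFunctionFinEquiv (m := q) (n := 2 ^ h)).symm
      ⟨dig x p, hlt x p⟩ a) = (finFunctionFinEquiv (m := q) (n := 2 ^ h)).symm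
      ⟨dig x p, hlt x p⟩ from rfl, Equiv.apply_symm_apply]
  have hJinj : Function.Injective J := by
    intro x y hxy
    have : dig x = dig y := by
      funext p
      rw [← hJ x p, ← hJ y p, hxy]
    rw [hG x, hG y, this]
  let B : Matrix (P → K) G K := Matrix.of fun a x => ∏ p, a p ^ dig x p
  have hB : B = (evalMat q (fun (ka : P × Fin (2 ^ h)) (x : P → K) =>
      x ka.1 ^ (q ^ (ka.2 : ℕ)))).submatrix id J := by
    ext a x
    simp only [B, evalMat, Matrix.of_apply, Matrix.submatrix_apply, id_eq]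
    rw [Fintype.prod_prod_type]
    refine Finset.prod_congr rfl (fun p _ => ?_)
    rw [← hJ x p, ← Finset.prod_pow_eq_pow_sum]
    refine Finset.prod_congr rfl (fun i _ => ?_)
    rw [← pow_mul, mul_comm]
  have hBdec := hV.submatrix id J Function.injective_id hJinj
  rw [← hB] at hBdec
  have hfac : ∀ f : G → K, ∃ D : (P → K) → K, hank f = Bᵀ * (Matrix.diagonal D * B) := by
    intro f
    obtain ⟨Fh, hF⟩ := interp_multi (K := K) (fun v : P → ℕ => f (∑ p, v p • g p))
    refine ⟨Fh, ?_⟩
    ext x y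
    rw [hank_apply, Matrix.mul_apply]
    have h1 : x + y = ∑ p, (dig x p + dig y p) • g p := by
      conv_lhs => rw [hG x, hG y]
      rw [← Finset.sum_add_distrib]
      exact Finset.sum_congr rfl (fun p _ => (add_smul _ _ _).symm)
    rw [h1, hF (fun p => dig x p + dig y p) (fun p => by
      have h2 := hdig x p
      have h3 := hdig y p
      rw [hK]
      omega)]
    refine Finset.sum_congr rfl (fun a _ => ?_)
    rw [Matrix.diagonal_mul, Matrix.transpose_apply]
    simp only [B, Matrix.of_apply, pow_add, Finset.prod_mul_distrib]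
    ring
  choose D hD using hfac
  have h1 := StrR.diagonal (K := K) D
  have hs0 : (0 : ℝ) ≤ spB (Fintype.card P * 2 ^ h) L q τ ^ (2 * h + 2) :=
    pow_nonneg (spB_pos _ _ _ _).le _
  have h2 := StrR.mul_right hBdec h1 hs0 (by norm_num)
  have h3 := StrR.mul_left hBdec.transpose h2 hs0 (by positivity)
  have h4 : (fun f : G → K => hank f) = fun f => Bᵀ * (Matrix.diagonal (D f) * B) := by
    funext f
    exact hD f
  rw [h4]
  refine h3.mono (le_of_eq (by ring)) (le_of_eq (by ring))

end Pool.Agent.Lib.MP_d64ee4_lc
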