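import Pool.Agent.Lib.MP_d64ee4_lc.Assemble

set_option autoImplicit false
set_option linter.unusedSectionVars false

/-!
# The structure theorem for all finite abelian groups
-/

namespace Pool.Agent.Lib.MP_d64ee4_lc

open Matrix Polynomial

/-- splitting a product of groups along a predicate -/
def piSplit {ι : Type} (p : ι → Prop) [DecidablePred p] (A : ι → Type) [∀ i, AddCommGroup (A i)] :
    (∀ i, A i) ≃+ (∀ i : {i // p i}, A i) × (∀ i : {i // ¬ p i}, A i) :=
  { Equiv.piEquivPiSubtypeProd p A with
    map_add' := fun _ _ => rfl }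

theorem structure_thm (F : Type) [Field F] [Fintype F] (ε : ℝ) (hε : 0 < ε) :
    ∃ C δ : ℝ, 0 ≤ C ∧ 0 < δ ∧ ∀ (G : Type) [AddCommGroup G] [Fintype G],
      StrR (fun f : G → F => hank f)
        (C * (Fintype.card G : ℝ) * Real.exp (-(δ * Real.log (Fintype.card G))))
        (Real.exp (ε * Real.log (Fintype.card G))) := by
  classical
  have hε2 : 0 < ε / 2 := by positivity
  obtain ⟨b, κ, CL, hb, hκ, hCL, hlarge⟩ := large_final F (ε / 2) hε2
  have hb0 : 0 < b := by omega
  set M := b ^ κ with hM
  have hM4 : 4 ≤ M := by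
    calc 4 = 2 ^ 2 := by norm_num
      _ ≤ b ^ 2 := Nat.pow_le_pow_left hb 2
      _ ≤ b ^ κ := Nat.pow_le_pow_right (by omega) hκ
  obtain ⟨CS, c, hCS, hc, hsmall⟩ := small_final F M (by omega) (ε / 2) hε2
  have hlogM : 0 < Real.log M := Real.log_pos (by
    have : (4 : ℝ) ≤ M := by exact_mod_cast hM4
    linarith)
  have hlogb : 0 < Real.log b := Real.log_pos (by
    have : (2 : ℝ) ≤ b := by exact_mod_cast hb
    linarith)
  set δ : ℝ := min (c * (ε / 2) / Real.log M) ((ε / 2) / Real.log b) with hδ
  have hδ0 : 0 < δ := lt_min (by positivity) (by positivity)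
  refine ⟨CS + CL, δ, by positivity, hδ0, ?_⟩
  intro G _ _
  obtain ⟨ι, _, m, hm, ⟨e⟩⟩ := AddCommGroup.equiv_directSum_zmod_of_finite' G
  have hnz : ∀ i, NeZero (m i) := fun i => ⟨by have := hm i; omega⟩
  let e2 : G ≃+ (∀ i, ZMod (m i)) := e.trans (DirectSum.addEquivProd (fun i => ZMod (m i)))
  let e3 := e2.trans (piSplit (fun i => m i < M) (fun i => ZMod (m i)))
  let mS : {i // m i < M} → ℕ := fun i => m i.1
  let mL : {i // ¬ m i < M} → ℕ := fun i => m i.1
  have hnzS : ∀ i, NeZero (mS i) := fun i => hnz i.1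
  have hnzL : ∀ i, NeZero (mL i) := fun i => hnz i.1
  let GA := ∀ i : {i // m i < M}, ZMod (mS i)
  let GB := ∀ i : {i // ¬ m i < M}, ZMod (mL i)
  have hcard : (Fintype.card G : ℝ) = (Fintype.card GA : ℝ) * Fintype.card GB := by
    have h1 : Fintype.card G = Fintype.card (GA × GB) := Fintype.card_congr e3.toEquiv
    rw [h1, Fintype.card_prod, Nat.cast_mul]
  have hcardS : (Fintype.card GA : ℝ) = ∏ i, (mS i : ℝ) := by
    rw [Fintype.card_pi]
    push_cast
    exact Finset.prod_congr rfl (fun i _ => by rw [ZMod.card])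
  set N : ℝ := (Fintype.card G : ℝ) with hN
  have hS1 : (1 : ℝ) ≤ Fintype.card GA := by
    exact_mod_cast Fintype.card_pos_iff.mpr ⟨(0 : GA)⟩
  have hL1 : (1 : ℝ) ≤ Fintype.card GB := by
    exact_mod_cast Fintype.card_pos_iff.mpr ⟨(0 : GB)⟩
  have hN1 : 1 ≤ N := by
    rw [hcard]
    nlinarith
  have hN0 : 0 < N := by linarith
  have hSN : (Fintype.card GA : ℝ) ≤ N := by
    rw [hcard]
    nlinarith
  have hLN : (Fintype.card GB : ℝ) ≤ N := by
    rw [hcard]
    nlinarith
  have hlogN : 0 ≤ Real.log N := Real.log_nonneg hN1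
  have hlogS : Real.log (Fintype.card GA) ≤ Real.log N := Real.log_le_log (by linarith) hSN
  have hlogL : Real.log (Fintype.card GB) ≤ Real.log N := Real.log_le_log (by linarith) hLN
  -- small part
  have claimS : StrR (fun f : GA → F => hank f)
      (CS * (Fintype.card GA : ℝ) * Real.exp (-(δ * Real.log N)))
      (Real.exp (ε / 2 * Real.log N)) := by
    by_cases hcase : Real.log (Fintype.card GA) ≤ ε / 2 * Real.log N
    · have h1 : (Fintype.card GA : ℝ) ≤ Real.exp (ε / 2 * Real.log N) := by
        rw [← Real.log_le_iff_le_exp (by linarith)]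
        exact hcase
      exact (StrR.trivial (fun f : GA → F => hank f) h1 h1).mono (by positivity) le_rfl
    · push Not at hcase
      have h1 := hsmall mS (fun p => by have := hm p.1; show 2 ≤ m p.1; omega)
        (fun p => p.2.le)
      rw [← hcardS] at h1
      refine h1.mono ?_ ?_
      · apply mul_le_mul_of_nonneg_left _ (by positivity)
        apply Real.exp_le_exp.mpr
        have h2 : Real.log (Fintype.card GA) ≤ Fintype.card {i // m i < M} * Real.log M := by
          rw [hcardS, Real.log_prod (fun p _ => by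
            have : (mS p : ℝ) ≠ 0 := by exact_mod_cast NeZero.ne (mS p)
            exact this)]
          calc ∑ p, Real.log (mS p) ≤ ∑ _p : {i // m i < M}, Real.log M := by
                refine Finset.sum_le_sum (fun p _ => ?_)
                apply Real.log_le_log
                · exact_mod_cast Nat.pos_of_ne_zero (NeZero.ne (mS p))
                · exact_mod_cast p.2.le
            _ = Fintype.card {i // m i < M} * Real.log M := by simp
        have h3 : δ ≤ c * (ε / 2) / Real.log M := min_le_left _ _
        have h4 : δ * Real.log N ≤ c * (ε / 2) / Real.log M * Real.log N :=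
          mul_le_mul_of_nonneg_right h3 hlogN
        have h5 : c * (ε / 2) / Real.log M * Real.log N ≤ c * Fintype.card {i // m i < M} := by
          rw [div_mul_eq_mul_div, div_le_iff₀ hlogM]
          have h6 : ε / 2 * Real.log N ≤ Fintype.card {i // m i < M} * Real.log M :=
            hcase.le.trans h2
          nlinarith [mul_le_mul_of_nonneg_left h6 hc.le]
        linarith
      · apply Real.exp_le_exp.mpr
        exact mul_le_mul_of_nonneg_left hlogS hε2.le
  have claimL : StrR (fun f : GB → F => hank f)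
      (CL * (Fintype.card GB : ℝ) * Real.exp (-(δ * Real.log N)))
      (Real.exp (ε / 2 * Real.log N)) := by
    by_cases hcase : Real.log (Fintype.card GB) ≤ ε / 2 * Real.log N
    · have h1 : (Fintype.card GB : ℝ) ≤ Real.exp (ε / 2 * Real.log N) := by
        rw [← Real.log_le_iff_le_exp (by linarith)]
        exact hcase
      exact (StrR.trivial (fun f : GB → F => hank f) h1 h1).mono (by positivity) le_rfl
    · push Not at hcase
      obtain ⟨P, iP, dP, dig, g, hd1, hd2, hd3, hd4⟩ := exists_digits b κ hb hκ mL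
        (fun i => by have := i.2; show b ^ κ ≤ m i.1; omega)
      have h1 := hlarge P dig g hd1 hd2 hd3
      refine h1.mono ?_ ?_
      · apply mul_le_mul_of_nonneg_left _ (by positivity)
        apply Real.exp_le_exp.mpr
        have h2 : Real.log (Fintype.card GB) ≤ Fintype.card P * Real.log b := by
          rw [← Real.log_pow]
          exact Real.log_le_log (by linarith) hd4
        have h3 : δ ≤ (ε / 2) / Real.log b := min_le_right _ _
        have h4 : δ * Real.log N ≤ (ε / 2) / Real.log b * Real.log N :=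
          mul_le_mul_of_nonneg_right h3 hlogN
        have h5 : (ε / 2) / Real.log b * Real.log N ≤ Fintype.card P := by
          rw [div_mul_eq_mul_div, div_le_iff₀ hlogb]
          exact hcase.le.trans h2
        linarith
      · apply Real.exp_le_exp.mpr
        exact mul_le_mul_of_nonneg_left hlogL hε2.le
  have hprod := StrR.hank_prod claimS claimL (Real.exp_pos _).le (Real.exp_pos _).le
  have hfin := StrR.hank_equiv (K := F) e3 hprod
  refine hfin.mono ?_ ?_
  · rw [hcard]
    apply le_of_eq
    ring
  · rw [← Real.exp_add]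
    apply Real.exp_le_exp.mpr
    linarith

/-- Conclusion for single matrices: power saving rank after few changes per row and column. -/
theorem decomposition (F : Type) [Field F] [Fintype F] (ε : ℝ) (hε : 0 < ε) :
    ∃ C δ : ℝ, 0 ≤ C ∧ 0 < δ ∧ ∀ (G : Type) [AddCommGroup G] [Fintype G] (f : G → F),
      ∃ A : Matrix G G F, (A.rank : ℝ) ≤ C * (Fintype.card G : ℝ) ^ (1 - δ) ∧
        RelLE (fun x y => f (x - y) ≠ A x y) ((Fintype.card G : ℝ) ^ ε) := by
  obtain ⟨C, δ, hC, hδ, h⟩ := structure_thm F ε hε
  refine ⟨C, δ, hC, hδ, ?_⟩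
  intro G _ _ f
  have hN0 : (0 : ℝ) < Fintype.card G := by
    exact_mod_cast Fintype.card_pos_iff.mpr ⟨(0 : G)⟩
  have h1 := (h G).submatrix (id : G → G) (fun y => -y) Function.injective_id neg_injective
  obtain ⟨n₁, n₂, Q, Q', P, h2, h3, h4⟩ := h1
  obtain ⟨X, Y, S, h5, h6⟩ := h4 f
  refine ⟨Q * X + Y * Q', ?_, ?_⟩
  · have h7 : ((Q * X + Y * Q').rank : ℝ) ≤ ((n₁ + n₂ : ℕ) : ℝ) := by
      rw [← Matrix.fromCols_mul_fromRows]
      have h9 := (Matrix.rank_mul_le_left (Matrix.fromCols Q Y) (Matrix.fromRows X Q')).trans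
        (Matrix.rank_le_card_width (Matrix.fromCols Q Y))
      rw [Fintype.card_sum, Fintype.card_fin, Fintype.card_fin] at h9
      exact_mod_cast h9
    refine h7.trans (h2.trans (le_of_eq ?_))
    rw [Real.rpow_sub hN0, Real.rpow_one, div_eq_mul_inv, ← Real.rpow_neg hN0.le,
      Real.rpow_def_of_pos hN0]
    rw [mul_assoc]
    congr 3
    ring
  · refine h3.mono (fun x y hxy => h6 x y (fun h0 => hxy ?_)) (le_of_eq ?_)
    · have h11 := congrFun (congrFun h5 x) y
      rw [Matrix.add_apply, h0, add_zero] at h11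
      rw [← h11]
      simp [hank, sub_eq_add_neg]
    · rw [Real.rpow_def_of_pos hN0, mul_comm]

end Pool.Agent.Lib.MP_d64ee4_lc
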