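import Pool.Agent.Lib.MP_d64ee4_lc.Dec
import Pool.Agent.Lib.MP_d64ee4_lc.Count

set_option autoImplicit false
set_option linter.unusedSectionVars false

/-!
# Monotone matrices on digit strings are low rank plus sparse
-/

namespace Pool.Agent.Lib.MP_d64ee4_lc

open Matrix

variable {K : Type*} [Field K]

/-- the rank bound attached to `n` digits with total alphabet size `T` -/
noncomputable def rkB (T : ℝ) (n : ℕ) (B τ : ℝ) : ℝ := 2 * T * Real.exp (-(2 * τ ^ 2 / (n * B ^ 2)))

/-- the sparsity bound -/
noncomputable def spB (n : ℕ) (L D τ : ℝ) : ℝ := Real.exp (L * (2 * τ) + Real.exp (-L) * D * n)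

lemma spB_pos (n : ℕ) (L D τ : ℝ) : 0 < spB n L D τ := Real.exp_pos _

lemma one_le_spB {n : ℕ} {L D τ : ℝ} (hL : 0 ≤ L) (hD : 0 ≤ D) (hτ : 0 ≤ τ) : 1 ≤ spB n L D τ := by
  unfold spB
  rw [← Real.exp_zero]
  apply Real.exp_le_exp.mpr
  positivity

variable {ι : Type*} [Fintype ι] [DecidableEq ι] {d : ι → ℕ}

/-- A matrix indexed by digit strings whose nonzero entries `(i, j)` satisfy
`hammingDist i j ≤ Ψ j - Ψ i` for a linear functional `Ψ` is low rank plus sparse. -/
theorem decR_of_mono (M : Matrix (∀ p, Fin (d p)) (∀ p, Fin (d p)) K) (w : ι → ℝ)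
    (B τ L D : ℝ) (hτ : 0 ≤ τ) (hL : 0 ≤ L) (hD : ∀ p, (d p : ℝ) ≤ D)
    (hB : ∀ p, |w p| * ((d p : ℝ) - 1) ≤ B)
    (hM : ∀ i j, M i j ≠ 0 → (hammingDist i j : ℝ) ≤ ∑ p, w p * ((j p : ℝ) - (i p : ℝ))) :
    DecR M (rkB (∏ p, (d p : ℝ)) (Fintype.card ι) B τ) (spB (Fintype.card ι) L D τ) := by
  classical
  set Ψ : (∀ p, Fin (d p)) → ℝ := fun j => ∑ p, w p * ((j p : ℝ) - ((d p : ℝ) - 1) / 2) with hΨ
  let Low := {i : ∀ p, Fin (d p) // Ψ i < -τ}
  let High := {j : ∀ p, Fin (d p) // τ < Ψ j}
  have hdiff : ∀ i j : (∀ p, Fin (d p)), Ψ j - Ψ i = ∑ p, w p * ((j p : ℝ) - (i p : ℝ)) := by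
    intro i j
    rw [hΨ]
    simp only
    rw [← Finset.sum_sub_distrib]
    refine Finset.sum_congr rfl (fun p _ => by ring)
  let Q1 : Matrix (∀ p, Fin (d p)) Low K := Matrix.of fun i l => if i = l.1 then 1 else 0
  let Q2 : Matrix (∀ p, Fin (d p)) High K := Matrix.of fun i h => if Ψ i < -τ then 0 else M i h.1
  let X1 : Matrix Low (∀ p, Fin (d p)) K := Matrix.of fun l j => M l.1 j
  let X2 : Matrix High (∀ p, Fin (d p)) K := Matrix.of fun h j => if j = h.1 then 1 else 0
  let E : Matrix (∀ p, Fin (d p)) (∀ p, Fin (d p)) K :=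
    Matrix.of fun i j => if Ψ i < -τ then 0 else if τ < Ψ j then 0 else M i j
  refine DecR.of_fintype (R := Low ⊕ High) (Matrix.fromCols Q1 Q2) (Matrix.fromRows X1 X2) E ?_ ?_ ?_
  · rw [Matrix.fromCols_mul_fromRows]
    ext i j
    simp only [Matrix.add_apply, Matrix.mul_apply, Q1, Q2, X1, X2, E, Matrix.of_apply, ite_mul,
      one_mul, zero_mul, mul_ite, mul_one, mul_zero]
    by_cases hi : Ψ i < -τ
    · have h1 : ∑ x : Low, (if i = x.1 then M x.1 j else 0) = M i j := by
        rw [Finset.sum_eq_single (⟨i, hi⟩ : Low)]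
        · simp
        · intro b _ hb
          rw [if_neg]
          intro h
          exact hb (Subtype.ext h.symm)
        · intro h
          exact absurd (Finset.mem_univ _) h
      have h2 : ∑ x : High, (if j = x.1 then (if Ψ i < -τ then (0 : K) else M i x.1) else 0) = 0 := by
        refine Finset.sum_eq_zero (fun x _ => ?_)
        simp [hi]
      rw [h1, h2]
      simp [hi]
    · have h1 : ∑ x : Low, (if i = x.1 then M x.1 j else 0) = 0 := by
        refine Finset.sum_eq_zero (fun x _ => ?_)
        rw [if_neg]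
        intro h
        exact hi (h ▸ x.2)
      rw [h1]
      by_cases hj : τ < Ψ j
      · have h2 : ∑ x : High, (if j = x.1 then (if Ψ i < -τ then (0 : K) else M i x.1) else 0) =
            M i j := by
          rw [Finset.sum_eq_single (⟨j, hj⟩ : High)]
          · simp [hi]
          · intro b _ hb
            rw [if_neg]
            intro h
            exact hb (Subtype.ext h.symm)
          · intro h
            exact absurd (Finset.mem_univ _) h
        rw [h2]
        simp [hi, hj]
      · have h2 : ∑ x : High, (if j = x.1 then (if Ψ i < -τ then (0 : K) else M i x.1) else 0) = 0 := by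
          refine Finset.sum_eq_zero (fun x _ => ?_)
          rw [if_neg]
          intro h
          exact hj (h ▸ x.2)
        rw [h2]
        simp [hi, hj]
  · have h1 := card_low_le (d := d) w B τ hτ hB
    have h2 := card_high_le (d := d) w B τ hτ hB
    have h3 : (Fintype.card (Low ⊕ High) : ℝ) =
        ((Finset.univ.filter fun j : ∀ p, Fin (d p) =>
          ∑ p, w p * ((j p : ℝ) - ((d p : ℝ) - 1) / 2) < -τ).card : ℝ) +
        ((Finset.univ.filter fun j : ∀ p, Fin (d p) =>
          τ < ∑ p, w p * ((j p : ℝ) - ((d p : ℝ) - 1) / 2)).card : ℝ) := by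
      rw [Fintype.card_sum, Nat.cast_add]
      congr 1
      · rw [Fintype.card_subtype]
      · rw [Fintype.card_subtype]
    rw [h3]
    unfold rkB
    linarith
  · have key : ∀ i j, E i j ≠ 0 → (hammingDist i j : ℝ) ≤ 2 * τ := by
      intro i j h
      simp only [E, Matrix.of_apply] at h
      split_ifs at h with h1 h2
      · exact absurd rfl h
      · exact absurd rfl h
      · have h3 := hM i j h
        rw [← hdiff] at h3
        linarith
    constructor
    · intro i
      refine le_trans ?_ (card_ball_le i L (2 * τ) D hL (fun p => by simpa using hD p))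
      exact_mod_cast Finset.card_le_card (fun j hj => by
        simp only [Finset.mem_filter, Finset.mem_univ, true_and] at hj ⊢
        exact key i j hj)
    · intro j
      refine le_trans ?_ (card_ball_le j L (2 * τ) D hL (fun p => by simpa using hD p))
      exact_mod_cast Finset.card_le_card (fun i hi => by
        simp only [Finset.mem_filter, Finset.mem_univ, true_and] at hi ⊢
        rw [hammingDist_comm]
        exact key i j hi)

end Pool.Agent.Lib.MP_d64ee4_lc
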