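import Pool.Agent.Lib.MP_d64ee4_lc.Stage

set_option autoImplicit false
set_option linter.unusedSectionVars false

/-!
# Newton expansions
-/

namespace Pool.Agent.Lib.MP_d64ee4_lc

open Matrix Polynomial

variable {K : Type*} [Field K]

/-- Newton polynomials -/
noncomputable def newt (α : ℕ → K) (i : ℕ) : K[X] := ∏ t ∈ Finset.range i, (X - C (α t))

lemma newt_succ (α : ℕ → K) (i : ℕ) : newt α (i + 1) = newt α i * (X - C (α i)) := by
  unfold newt
  rw [Finset.prod_range_succ]

lemma newton_expand_range (α : ℕ → K) (j : ℕ) : ∃ c : ℕ → K, (∀ i, j < i → c i = 0) ∧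
    (X : K[X]) ^ j = ∑ i ∈ Finset.range (j + 1), C (c i) * newt α i := by
  induction j with
  | zero =>
    refine ⟨fun i => if i = 0 then 1 else 0, fun i hi => ?_, ?_⟩
    · simp only
      rw [if_neg (by omega)]
    · simp [newt]
  | succ j ih =>
    obtain ⟨c, hc, h⟩ := ih
    refine ⟨fun i => (if i = 0 then 0 else c (i - 1)) + α i * c i, fun i hi => ?_, ?_⟩
    · simp only
      rw [if_neg (by omega), hc _ (by omega), hc _ (by omega)]
      simp
    · rw [pow_succ, h, Finset.sum_mul]
      simp only [C_add, add_mul, Finset.sum_add_distrib]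
      have h1 : ∑ i ∈ Finset.range (j + 1 + 1), C (if i = 0 then (0 : K) else c (i - 1)) * newt α i =
          ∑ i ∈ Finset.range (j + 1), C (c i) * newt α (i + 1) := by
        rw [Finset.sum_range_succ']
        simp
      have h2 : ∑ i ∈ Finset.range (j + 1 + 1), C (α i * c i) * newt α i =
          ∑ i ∈ Finset.range (j + 1), C (α i * c i) * newt α i := by
        rw [Finset.sum_range_succ, hc (j + 1) (by omega)]
        simp
      rw [h1, h2, ← Finset.sum_add_distrib]
      refine Finset.sum_congr rfl (fun i _ => ?_)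
      rw [newt_succ, C_mul]
      ring

lemma newton_expand (α : ℕ → K) (j : ℕ) : ∃ c : ℕ → K, (∀ i, j < i → c i = 0) ∧
    ∀ M, j < M → (X : K[X]) ^ j = ∑ i ∈ Finset.range M, C (c i) * newt α i := by
  obtain ⟨c, hc, h⟩ := newton_expand_range α j
  refine ⟨c, hc, fun M hM => ?_⟩
  rw [h]
  refine Finset.sum_subset (fun i hi => ?_) (fun i _ hi => ?_)
  · simp only [Finset.mem_range] at hi ⊢
    omega
  · simp only [Finset.mem_range, not_lt] at hi
    rw [hc i (by omega)]
    simp

/-- Newton factorisation of evaluation at points `α l`, `l : Fin q`. -/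
lemma newton_fin (q : ℕ) (α : Fin q → K) : ∃ (N c : Fin q → Fin q → K),
    (∀ l i, N l i ≠ 0 → i ≤ l) ∧ (∀ i j, c i j ≠ 0 → i ≤ j) ∧
    ∀ (l j : Fin q), α l ^ (j : ℕ) = ∑ i, N l i * c i j := by
  let α' : ℕ → K := fun t => if h : t < q then α ⟨t, h⟩ else 0
  have h := fun j : Fin q => newton_expand α' (j : ℕ)
  choose c hc h using h
  refine ⟨fun l i => (newt α' i).eval (α l), fun i j => c j i, ?_, ?_, ?_⟩
  · intro l i hli
    by_contra hcon
    apply hli
    simp only [newt, eval_prod, eval_sub, eval_X, eval_C]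
    refine Finset.prod_eq_zero (i := (l : ℕ)) ?_ ?_
    · simp only [Finset.mem_range]
      exact not_le.mp hcon
    · simp [α']
  · intro i j hij
    by_contra hcon
    exact hij (hc j i (not_le.mp hcon))
  · intro l j
    have h1 := congrArg (Polynomial.eval (α l)) (h j q j.2)
    simp only [eval_pow, eval_X, eval_finsetSum, eval_mul, eval_C] at h1
    rw [h1, ← Fin.sum_univ_eq_sum_range (fun i => c j i * (newt α' i).eval (α l))]
    exact Finset.sum_congr rfl (fun i _ => mul_comm _ _)

end Pool.Agent.Lib.MP_d64ee4_lc
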