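import Pool.Agent.Lib.MP_d64ee4_lc.Small

set_option autoImplicit false
set_option linter.unusedSectionVars false

/-!
# The structure theorems over the base field
-/

namespace Pool.Agent.Lib.MP_d64ee4_lc

open Matrix Polynomial

lemma exists_algebraMap_of_pow_eq {F K : Type*} [Field F] [Fintype F] [Field K] [Algebra F K]
    (x : K) (hx : x ^ Fintype.card F = x) : ∃ a : F, algebraMap F K a = x := by
  classical
  have hroots := FiniteField.roots_X_pow_card_sub_X F
  have hdeg : (X ^ Fintype.card F - X : F[X]).natDegree = Fintype.card F :=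
    FiniteField.X_pow_card_sub_X_natDegree_eq F Fintype.one_lt_card
  have hsplits : (X ^ Fintype.card F - X : F[X]).Splits := by
    rw [splits_iff_card_roots, hroots, hdeg]
    rfl
  have h1 := hsplits.roots_map (algebraMap F K)
  have hne : ((X ^ Fintype.card F - X : F[X]).map (algebraMap F K)) ≠ 0 := by
    rw [Polynomial.map_ne_zero_iff (algebraMap F K).injective]
    exact FiniteField.X_pow_card_sub_X_ne_zero F Fintype.one_lt_card
  have h2 : x ∈ ((X ^ Fintype.card F - X : F[X]).map (algebraMap F K)).roots := by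
    rw [mem_roots hne]
    simp [hx]
  rw [h1, hroots, Multiset.mem_map] at h2
  obtain ⟨a, _, ha⟩ := h2
  exact ⟨a, ha⟩

lemma exists_omega {K : Type*} [Field K] [Fintype K] (q h t : ℕ) (hq : 2 ≤ q)
    (hK : Fintype.card K = q ^ 2 ^ h) (ht : t < h) :
    ∃ ω : K, ω ^ (q ^ 2 ^ (t + 1)) = ω ∧ ω ^ (q ^ 2 ^ t) ≠ ω := by
  classical
  obtain ⟨g, hg⟩ := IsCyclic.exists_ofOrder_eq_natCard (α := Kˣ)
  rw [Nat.card_eq_fintype_card, Fintype.card_units, hK] at hg
  have h1 : 1 ≤ q ^ 2 ^ h := Nat.one_le_pow _ _ (by omega)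
  have h2 : 1 ≤ q ^ 2 ^ (t + 1) := Nat.one_le_pow _ _ (by omega)
  have h3 : 1 ≤ q ^ 2 ^ t := Nat.one_le_pow _ _ (by omega)
  have hlt : q ^ 2 ^ t < q ^ 2 ^ (t + 1) :=
    Nat.pow_lt_pow_right (by omega) (Nat.pow_lt_pow_right (by omega) (by omega))
  have hgt1 : 1 < q ^ 2 ^ t := by
    calc 1 < q := by omega
      _ = q ^ 1 := (pow_one q).symm
      _ ≤ q ^ 2 ^ t := Nat.pow_le_pow_right (by omega) Nat.one_le_two_pow
  have hdvd : q ^ 2 ^ (t + 1) - 1 ∣ q ^ 2 ^ h - 1 := by
    have h4 : 2 ^ (t + 1) ∣ 2 ^ h := pow_dvd_pow 2 (by omega)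
    obtain ⟨c, hc⟩ := h4
    rw [hc, pow_mul]
    have := Nat.sub_dvd_pow_sub_pow (q ^ 2 ^ (t + 1)) 1 c
    simpa using this
  obtain ⟨e, he⟩ := hdvd
  have hpos : 0 < q ^ 2 ^ h - 1 := by
    have : q ^ 2 ^ (t+1) ≤ q ^ 2 ^ h :=
      Nat.pow_le_pow_right (by omega) (Nat.pow_le_pow_right (by omega) (by omega))
    omega
  have he0 : e ≠ 0 := by
    rintro rfl
    rw [mul_zero] at he
    omega
  have hord : orderOf (g ^ e) = q ^ 2 ^ (t + 1) - 1 := by
    rw [orderOf_pow_of_dvd he0 (by rw [hg, he]; exact dvd_mul_left _ _), hg, he]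
    exact Nat.mul_div_cancel _ (Nat.pos_of_ne_zero he0)
  refine ⟨((g ^ e : Kˣ) : K), ?_, ?_⟩
  · have h5 : (g ^ e) ^ (q ^ 2 ^ (t + 1) - 1) = 1 := by rw [← hord]; exact pow_orderOf_eq_one _
    have h6 : (g ^ e) ^ (q ^ 2 ^ (t + 1)) = g ^ e := by
      conv_lhs => rw [show q ^ 2 ^ (t + 1) = (q ^ 2 ^ (t + 1) - 1) + 1 by omega, pow_succ, h5,
        one_mul]
    rw [← Units.val_pow_eq_pow_val, h6]
  · intro h5
    rw [← Units.val_pow_eq_pow_val, Units.val_inj] at h5
    have h6 : (g ^ e) ^ (q ^ 2 ^ t - 1) = 1 := by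
      have h7 : (g ^ e) ^ (q ^ 2 ^ t) = (g ^ e) ^ (q ^ 2 ^ t - 1) * (g ^ e) := by
        conv_lhs => rw [show q ^ 2 ^ t = (q ^ 2 ^ t - 1) + 1 by omega, pow_succ]
      rw [h7] at h5
      exact mul_eq_right.mp h5
    have h8 := orderOf_dvd_of_pow_eq_one h6
    rw [hord] at h8
    have h9 := Nat.le_of_dvd (by omega) h8
    omega

theorem large_over_F {F : Type} [Field F] [Fintype F] (h : ℕ)
    {G : Type} [AddCommGroup G] [Fintype G] (P : Type) [Fintype P] [DecidableEq P] (b : ℕ)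
    (hb : 2 * b ≤ Fintype.card F ^ 2 ^ h + 1) (dig : G → P → ℕ) (g : P → G)
    (hdig : ∀ x p, dig x p < b) (hG : ∀ x, x = ∑ p, dig x p • g p)
    (τ L : ℝ) (hτ : 0 ≤ τ) (hL : 0 ≤ L) :
    StrR (fun f : G → F => hank f)
      (2 ^ h * (2 * ((2 * h + 2) * rkB ((Fintype.card F : ℝ) ^ (Fintype.card P * 2 ^ h))
        (Fintype.card P * 2 ^ h) (6 * ((Fintype.card F : ℝ) - 1)) τ)))
      ((spB (Fintype.card P * 2 ^ h) L (Fintype.card F) τ ^ (2 * h + 2)) ^ 2) := by
  classical
  obtain ⟨p, hp⟩ := CharP.exists F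
  have hprime : Fact p.Prime := ⟨CharP.char_is_prime F p⟩
  have : NeZero (2 ^ h) := ⟨by positivity⟩
  let K := FiniteField.Extension F p (2 ^ h)
  have hKF : Fintype K := Fintype.ofFinite K
  have hcardK : Fintype.card K = Fintype.card F ^ 2 ^ h := by
    have := FiniteField.natCard_extension F p (2 ^ h)
    rw [Nat.card_eq_fintype_card, Nat.card_eq_fintype_card] at this
    exact this
  have hcharK : CharP K p := charP_of_injective_algebraMap (algebraMap F K).injective p
  obtain ⟨n, _, hn⟩ := FiniteField.card F p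
  have hadd : ∀ x y : K, (x + y) ^ Fintype.card F = x ^ Fintype.card F + y ^ Fintype.card F := by
    intro x y
    rw [hn]
    exact add_pow_char_pow x y p _
  have hα : ∀ x : K, x ^ Fintype.card F = x →
      ∃ l : Fin (Fintype.card F), algebraMap F K ((Fintype.equivFin F).symm l) = x := by
    intro x hx
    obtain ⟨a, ha⟩ := exists_algebraMap_of_pow_eq x hx
    exact ⟨Fintype.equivFin F a, by simpa using ha⟩
  have hstr := large_str (K := K) (Fintype.card F) h Fintype.one_lt_card hcardK hadd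
    (fun l => algebraMap F K ((Fintype.equivFin F).symm l)) hα
    (fun t ht => exists_omega (Fintype.card F) h t Fintype.one_lt_card hcardK ht)
    P b hb dig g hdig hG τ L hτ hL
  have hdesc := StrR.descend (F := F) (K := K) (fun f : G → F => hank f) (by
    have h1 := hstr.comp_param (fun f : G → F => fun x => algebraMap F K (f x))
    exact h1)
  rw [FiniteField.finrank_extension] at hdesc
  push_cast at hdesc
  exact hdesc

theorem small_over_F (F : Type) [Field F] (M : ℕ) : ∃ D : ℕ, ∀ {P : Type} [Fintype P]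
    [DecidableEq P] (m : P → ℕ) [∀ p, NeZero (m p)] (_ : ∀ p, m p ≤ M) (τ L : ℝ) (_ : 0 ≤ τ)
    (_ : 0 ≤ L),
    StrR (fun f : (∀ p, ZMod (m p)) → F => hank f)
      (D * (3 * rkB (∏ p, (m p : ℝ)) (Fintype.card P) M τ)) (spB (Fintype.card P) L M τ ^ 3) := by
  classical
  let g : F[X] := ∏ m ∈ Finset.Icc 1 M, (X ^ m - 1)
  let K := g.SplittingField
  refine ⟨Module.finrank F K, ?_⟩
  intro P _ _ m _ hm τ L hτ hL
  have hg : g ≠ 0 := by
    refine Finset.prod_ne_zero_iff.mpr (fun m hm => ?_)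
    have h1 := (Polynomial.monic_X_pow_sub_C (1 : F) (n := m) (by
      have := (Finset.mem_Icc.mp hm).1
      omega)).ne_zero
    simpa using h1
  have hs : ∀ p, (X ^ m p - 1 : K[X]).Splits := by
    intro p
    have h1 : (g.map (algebraMap F K)).Splits := Polynomial.SplittingField.splits g
    have h2 : (X ^ m p - 1 : F[X]) ∣ g := by
      apply Finset.dvd_prod_of_mem
      rw [Finset.mem_Icc]
      exact ⟨Nat.one_le_iff_ne_zero.mpr (NeZero.ne (m p)), hm p⟩
    have h3 : (X ^ m p - 1 : K[X]) ∣ g.map (algebraMap F K) := by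
      have := Polynomial.map_dvd (algebraMap F K) h2
      simpa using this
    exact h1.of_dvd (by rwa [Polynomial.map_ne_zero_iff (algebraMap F K).injective]) h3
  have hstr := small_str (K := K) m hs M τ L (fun p => by exact_mod_cast hm p) hτ hL
  exact StrR.descend (F := F) (K := K) (fun f : (∀ p, ZMod (m p)) → F => hank f) (by
    have h1 := hstr.comp_param (fun f : (∀ p, ZMod (m p)) → F => fun x => algebraMap F K (f x))
    exact h1)

end Pool.Agent.Lib.MP_d64ee4_lc
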