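import Pool.Agent.Lib.MP_d64ee4_lc.OverF

set_option autoImplicit false
set_option linter.unusedSectionVars false

/-!
# Choice of parameters
-/

namespace Pool.Agent.Lib.MP_d64ee4_lc

open Matrix Polynomial

lemma param_large (q : ℕ) (hq : 2 ≤ q) (ε : ℝ) (hε : 0 < ε) : ∃ h : ℕ, 1 ≤ h ∧
    (4 * (h : ℝ) + 4) * (2 * (h : ℝ) * (1 / (h : ℝ) ^ 3) + Real.exp (-(h : ℝ)) * q) ≤
      ε * Real.log 2 / 4 ∧
    3 ≤ (1 / (h : ℝ) ^ 3) ^ 2 * 2 ^ h / (18 * ((q : ℝ) - 1) ^ 2) := by
  have hq1 : (1 : ℝ) ≤ (q : ℝ) - 1 := by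
    have : (2 : ℝ) ≤ q := by exact_mod_cast hq
    linarith
  have hlog : 0 < Real.log 2 := Real.log_pos (by norm_num)
  have h1 : Filter.Tendsto (fun n : ℕ => (n : ℝ) ^ 6 / (2 : ℝ) ^ n) Filter.atTop (nhds 0) :=
    tendsto_pow_const_div_const_pow_of_one_lt 6 (by norm_num)
  have h2 : ∀ᶠ n : ℕ in Filter.atTop, (n : ℝ) ^ 6 / (2 : ℝ) ^ n < 1 / (54 * ((q : ℝ) - 1) ^ 2) :=
    h1.eventually_lt_const (by positivity)
  have h3 : ∀ᶠ n : ℕ in Filter.atTop, (16 + 16 * (q : ℝ)) / (ε * Real.log 2 / 4) ≤ (n : ℝ) :=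
    tendsto_natCast_atTop_atTop.eventually_ge_atTop _
  obtain ⟨h, hh1, hh2, hh3⟩ := (h2.and (h3.and (Filter.eventually_ge_atTop 1))).exists
  have hpos : (1 : ℝ) ≤ h := by exact_mod_cast hh3
  have hpos0 : (0 : ℝ) < h := by linarith
  refine ⟨h, hh3, ?_, ?_⟩
  · have hexp : Real.exp (-(h : ℝ)) ≤ 2 / (h : ℝ) ^ 2 := by
      rw [Real.exp_neg]
      have h4 := Real.pow_div_factorial_le_exp (h : ℝ) hpos0.le 2
      have h5 : (0 : ℝ) < (h : ℝ) ^ 2 / 2 := by positivity
      have h6 : (Real.exp (h : ℝ))⁻¹ ≤ ((h : ℝ) ^ 2 / 2)⁻¹ := by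
        apply inv_anti₀ h5
        simpa [Nat.factorial] using h4
      calc (Real.exp (h : ℝ))⁻¹ ≤ ((h : ℝ) ^ 2 / 2)⁻¹ := h6
        _ = 2 / (h : ℝ) ^ 2 := by rw [inv_div]
    have h7 : 2 * (h : ℝ) * (1 / (h : ℝ) ^ 3) = 2 / (h : ℝ) ^ 2 := by
      field_simp
    rw [h7]
    have hq0 : (0 : ℝ) ≤ q := Nat.cast_nonneg _
    calc (4 * (h : ℝ) + 4) * (2 / (h : ℝ) ^ 2 + Real.exp (-(h : ℝ)) * q)
        ≤ (8 * h) * (2 / (h : ℝ) ^ 2 + 2 / (h : ℝ) ^ 2 * q) := by
          apply mul_le_mul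
          · linarith
          · have := mul_le_mul_of_nonneg_right hexp hq0
            linarith
          · have := Real.exp_pos (-(h : ℝ))
            positivity
          · positivity
      _ = (16 + 16 * (q : ℝ)) / h := by
          field_simp
          ring
      _ ≤ ε * Real.log 2 / 4 := by
          rw [div_le_iff₀ hpos0]
          rw [div_le_iff₀ (by positivity)] at hh2
          linarith
  · rw [le_div_iff₀ (by positivity)]
    rw [div_lt_div_iff₀ (by positivity) (by positivity)] at hh1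
    have h8 : (1 / (h : ℝ) ^ 3) ^ 2 * 2 ^ h = 2 ^ h / (h : ℝ) ^ 6 := by
      field_simp
    rw [h8, le_div_iff₀ (by positivity)]
    nlinarith

lemma rkB_eq (T n B δ : ℝ) (N : ℕ) (hN : (N : ℝ) = n) :
    rkB T N B (δ * n) = 2 * T * Real.exp (-(n * (2 * δ ^ 2 / B ^ 2))) := by
  unfold rkB
  congr 2
  rw [hN]
  by_cases h : n = 0
  · simp [h]
  · by_cases hB : B = 0
    · simp [hB]
    · field_simp

theorem large_final (F : Type) [Field F] [Fintype F] (ε : ℝ) (hε : 0 < ε) :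
    ∃ (b κ : ℕ) (C : ℝ), 2 ≤ b ∧ 2 ≤ κ ∧ 0 ≤ C ∧
    ∀ {G : Type} [AddCommGroup G] [Fintype G] (P : Type) [Fintype P] [DecidableEq P]
      (dig : G → P → ℕ) (g : P → G) (_ : ∀ x p, dig x p < b) (_ : ∀ x, x = ∑ p, dig x p • g p)
      (_ : (b : ℝ) ^ Fintype.card P ≤
        (Fintype.card G : ℝ) * Real.exp (Fintype.card P * (Real.log b / κ))),
      StrR (fun f : G → F => hank f) (C * Fintype.card G * Real.exp (-(Fintype.card P : ℝ)))
        (Real.exp (ε * Real.log (Fintype.card G))) := by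
  set q := Fintype.card F with hqdef
  have hq : 2 ≤ q := Fintype.one_lt_card
  have hqr : (2 : ℝ) ≤ q := by exact_mod_cast hq
  obtain ⟨h, hh, hA, hB⟩ := param_large q hq ε hε
  have hhr : (1 : ℝ) ≤ h := by exact_mod_cast hh
  set δ : ℝ := 1 / (h : ℝ) ^ 3 with hδ
  have hδ0 : 0 < δ := by positivity
  have hlog2 : 0 < Real.log 2 := Real.log_pos (by norm_num)
  have hlog2' : Real.log 2 < 1 := by
    have := Real.log_two_lt_d9
    linarith
  set b := (q ^ 2 ^ h + 1) / 2 with hb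
  have h2h : 2 ≤ 2 ^ h := by
    calc 2 = 2 ^ 1 := by norm_num
      _ ≤ 2 ^ h := Nat.pow_le_pow_right (by norm_num) hh
  have hq4 : 4 ≤ q ^ 2 ^ h := by
    calc 4 = 2 ^ 2 := by norm_num
      _ ≤ q ^ 2 := Nat.pow_le_pow_left hq 2
      _ ≤ q ^ 2 ^ h := Nat.pow_le_pow_right (by omega) h2h
  have hb1 : 2 * b ≤ q ^ 2 ^ h + 1 := by omega
  have hb2 : q ^ 2 ^ h ≤ 2 * b := by omega
  have hb3 : 2 ≤ b := by omega
  have hbr : (2 : ℝ) ≤ b := by exact_mod_cast hb3
  have hb0 : (0 : ℝ) < b := by linarith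
  have hlogb : 0 < Real.log b := Real.log_pos (by linarith)
  have hlogb2 : Real.log b ≤ b := by
    have := Real.log_le_sub_one_of_pos hb0
    linarith
  refine ⟨b, b, 2 ^ h * (2 * ((2 * h + 2) * 2)), hb3, hb3, by positivity, ?_⟩
  intro G _ _ P _ _ dig g hdig hG hcard
  set k := Fintype.card P with hk
  set N := Fintype.card G with hN
  have hstr := large_over_F (F := F) h P b hb1 dig g hdig hG (δ * (k * 2 ^ h : ℕ)) h
    (by positivity) (by positivity)
  have hNpos : (0 : ℝ) < N := by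
    have : 0 < N := Fintype.card_pos_iff.mpr ⟨0⟩
    exact_mod_cast this
  refine hstr.mono ?_ ?_
  · rw [rkB_eq _ (k * 2 ^ h : ℕ) _ δ _ rfl]
    have e1 : ((q : ℝ) ^ (k * 2 ^ h)) ≤ N * Real.exp (k * Real.log 2 + k) := by
      calc ((q : ℝ) ^ (k * 2 ^ h)) = ((q : ℝ) ^ 2 ^ h) ^ k := by
            rw [← pow_mul, mul_comm]
        _ ≤ (2 * b) ^ k := by
            apply pow_le_pow_left₀ (by positivity)
            exact_mod_cast hb2
        _ = 2 ^ k * b ^ k := mul_pow _ _ _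
        _ ≤ 2 ^ k * (N * Real.exp (k * (Real.log b / b))) :=
            mul_le_mul_of_nonneg_left hcard (by positivity)
        _ ≤ Real.exp (k * Real.log 2) * (N * Real.exp k) := by
            apply mul_le_mul
            · rw [Real.exp_nat_mul, Real.exp_log (by norm_num)]
            · apply mul_le_mul_of_nonneg_left _ hNpos.le
              apply Real.exp_le_exp.mpr
              have : Real.log b / b ≤ 1 := by
                rw [div_le_one hb0]
                exact hlogb2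
              calc (k : ℝ) * (Real.log b / b) ≤ k * 1 :=
                    mul_le_mul_of_nonneg_left this (Nat.cast_nonneg _)
                _ = k := mul_one _
            · positivity
            · positivity
        _ = N * Real.exp (k * Real.log 2 + k) := by
            rw [Real.exp_add]
            ring
    have e2 : Real.exp (-(((k * 2 ^ h : ℕ) : ℝ) * (2 * δ ^ 2 / (6 * ((q : ℝ) - 1)) ^ 2))) ≤
        Real.exp (-(3 * k)) := by
      apply Real.exp_le_exp.mpr
      have e3 : ((k * 2 ^ h : ℕ) : ℝ) * (2 * δ ^ 2 / (6 * ((q : ℝ) - 1)) ^ 2) =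
          k * (δ ^ 2 * 2 ^ h / (18 * ((q : ℝ) - 1) ^ 2)) := by
        push_cast
        have : (q : ℝ) - 1 ≠ 0 := by linarith
        field_simp
        ring
      rw [e3]
      have := mul_le_mul_of_nonneg_left hB (Nat.cast_nonneg (α := ℝ) k)
      linarith
    calc 2 ^ h * (2 * ((2 * (h : ℝ) + 2) * (2 * (q : ℝ) ^ (k * 2 ^ h) *
          Real.exp (-(((k * 2 ^ h : ℕ) : ℝ) * (2 * δ ^ 2 / (6 * ((q : ℝ) - 1)) ^ 2))))))
        ≤ 2 ^ h * (2 * ((2 * (h : ℝ) + 2) * (2 * (N * Real.exp (k * Real.log 2 + k)) *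
          Real.exp (-(3 * k))))) := by
          gcongr
      _ = 2 ^ h * (2 * ((2 * (h : ℝ) + 2) * 2)) * N *
            Real.exp (k * Real.log 2 + k + (-(3 * k))) := by
          rw [Real.exp_add (k * Real.log 2 + k)]
          ring
      _ ≤ 2 ^ h * (2 * ((2 * (h : ℝ) + 2) * 2)) * N * Real.exp (-(k : ℝ)) := by
          apply mul_le_mul_of_nonneg_left _ (by positivity)
          apply Real.exp_le_exp.mpr
          have : (k : ℝ) * Real.log 2 ≤ k * 1 :=
            mul_le_mul_of_nonneg_left hlog2'.le (Nat.cast_nonneg _)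
          linarith
  · unfold spB
    rw [← Real.exp_nat_mul, ← Real.exp_nat_mul]
    apply Real.exp_le_exp.mpr
    -- lower bound for log N
    have hlogN : (k : ℝ) * (Real.log b / 2) ≤ Real.log N := by
      have e4 := Real.log_le_log (by positivity) hcard
      rw [Real.log_pow, Real.log_mul (by positivity) (Real.exp_pos _).ne', Real.log_exp] at e4
      have e5 : Real.log b / b ≤ Real.log b / 2 := div_le_div_of_nonneg_left hlogb.le (by norm_num) hbr
      have e6 := mul_le_mul_of_nonneg_left e5 (Nat.cast_nonneg (α := ℝ) k)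
      linarith
    have hlogb3 : (2 : ℝ) ^ h * Real.log 2 / 2 ≤ Real.log b := by
      have e7 : (2 : ℝ) ^ 2 ^ h ≤ 2 * b := by
        have e8 : 2 ^ 2 ^ h ≤ 2 * b := (Nat.pow_le_pow_left hq _).trans hb2
        exact_mod_cast e8
      have e9 := Real.log_le_log (by positivity) e7
      rw [Real.log_pow, Real.log_mul (by norm_num) hb0.ne'] at e9
      push_cast at e9
      have e10 : (2 : ℝ) ≤ 2 ^ h := by exact_mod_cast h2h
      nlinarith
    have e11 : (k : ℝ) * ((2 : ℝ) ^ h * Real.log 2 / 4) ≤ Real.log N := by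
      refine le_trans ?_ hlogN
      apply mul_le_mul_of_nonneg_left _ (Nat.cast_nonneg _)
      linarith
    push_cast
    calc (2 : ℝ) * ((2 * h + 2) * (h * (2 * (δ * (k * 2 ^ h))) +
          Real.exp (-(h : ℝ)) * q * (k * 2 ^ h)))
        = (k * 2 ^ h) * ((4 * (h : ℝ) + 4) * (2 * h * δ + Real.exp (-(h : ℝ)) * q)) := by ring
      _ ≤ (k * 2 ^ h) * (ε * Real.log 2 / 4) :=
          mul_le_mul_of_nonneg_left hA (by positivity)
      _ = ε * (k * ((2 : ℝ) ^ h * Real.log 2 / 4)) := by ring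
      _ ≤ ε * Real.log N := mul_le_mul_of_nonneg_left e11 hε.le

end Pool.Agent.Lib.MP_d64ee4_lc
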