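import Pool.Agent.Lib.MP_d64ee4_lc.Combine

set_option autoImplicit false
set_option linter.unusedSectionVars false

/-!
# Products of small cyclic groups
-/

namespace Pool.Agent.Lib.MP_d64ee4_lc

open Matrix Polynomial

variable {K : Type*} [Field K]

section mono_family

variable {ι : Type*} [Fintype ι] [DecidableEq ι] {d : ι → ℕ}

/-- uniform version of `decR_of_mono` -/
theorem strR_of_mono {Z : Type*} (M : Z → Matrix (∀ p, Fin (d p)) (∀ p, Fin (d p)) K) (w : ι → ℝ)
    (B τ L D : ℝ) (hτ : 0 ≤ τ) (hL : 0 ≤ L) (hD : ∀ p, (d p : ℝ) ≤ D)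
    (hB : ∀ p, |w p| * ((d p : ℝ) - 1) ≤ B)
    (hM : ∀ z i j, M z i j ≠ 0 → (hammingDist i j : ℝ) ≤ ∑ p, w p * ((j p : ℝ) - (i p : ℝ))) :
    StrR M (rkB (∏ p, (d p : ℝ)) (Fintype.card ι) B τ) (spB (Fintype.card ι) L D τ) := by
  classical
  set Ψ : (∀ p, Fin (d p)) → ℝ := fun j => ∑ p, w p * ((j p : ℝ) - ((d p : ℝ) - 1) / 2) with hΨ
  let Low := {i : ∀ p, Fin (d p) // Ψ i < -τ}
  let High := {j : ∀ p, Fin (d p) // τ < Ψ j}
  have hdiff : ∀ i j : (∀ p, Fin (d p)), Ψ j - Ψ i = ∑ p, w p * ((j p : ℝ) - (i p : ℝ)) := by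
    intro i j
    rw [hΨ]
    simp only
    rw [← Finset.sum_sub_distrib]
    refine Finset.sum_congr rfl (fun p _ => by ring)
  let Q1 : Matrix (∀ p, Fin (d p)) Low K := Matrix.of fun i l => if i = l.1 then 1 else 0
  let X2 : Matrix High (∀ p, Fin (d p)) K := Matrix.of fun h j => if j = h.1 then 1 else 0
  refine StrR.of_fintype (R := Low) (R' := High) Q1 X2
    (fun i j => (hammingDist i j : ℝ) ≤ 2 * τ) ?_ ?_ ?_
  · have h1 := card_low_le (d := d) w B τ hτ hB
    have h2 := card_high_le (d := d) w B τ hτ hB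
    have h3 : ((Fintype.card Low + Fintype.card High : ℕ) : ℝ) =
        ((Finset.univ.filter fun j : ∀ p, Fin (d p) =>
          ∑ p, w p * ((j p : ℝ) - ((d p : ℝ) - 1) / 2) < -τ).card : ℝ) +
        ((Finset.univ.filter fun j : ∀ p, Fin (d p) =>
          τ < ∑ p, w p * ((j p : ℝ) - ((d p : ℝ) - 1) / 2)).card : ℝ) := by
      rw [Nat.cast_add]
      congr 1
      · rw [Fintype.card_subtype]
      · rw [Fintype.card_subtype]
    rw [h3]
    unfold rkB
    linarith
  · constructor
    · intro i
      have := card_ball_le i L (2 * τ) D hL (fun p => by simpa using hD p)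
      unfold spB
      convert this
    · intro j
      have := card_ball_le j L (2 * τ) D hL (fun p => by simpa using hD p)
      simp only [hammingDist_comm j] at this
      unfold spB
      convert this
  · intro z
    refine ⟨Matrix.of fun l j => M z l.1 j, Matrix.of fun i h => if Ψ i < -τ then 0 else M z i h.1,
      Matrix.of fun i j => if Ψ i < -τ then 0 else if τ < Ψ j then 0 else M z i j, ?_, ?_⟩
    · ext i j
      simp only [Matrix.add_apply, Matrix.mul_apply, Q1, X2, Matrix.of_apply, ite_mul,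
        one_mul, zero_mul, mul_ite, mul_one, mul_zero]
      by_cases hi : Ψ i < -τ
      · have h1 : ∑ x : Low, (if i = x.1 then M z x.1 j else 0) = M z i j := by
          rw [Finset.sum_eq_single (⟨i, hi⟩ : Low)]
          · simp
          · intro b _ hb
            rw [if_neg]
            intro h
            exact hb (Subtype.ext h.symm)
          · intro h
            exact absurd (Finset.mem_univ _) h
        have h2 : ∑ x : High, (if j = x.1 then (if Ψ i < -τ then (0 : K) else M z i x.1) else 0) = 0 := by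
          refine Finset.sum_eq_zero (fun x _ => ?_)
          simp [hi]
        rw [h1, h2]
        simp [hi]
      · have h1 : ∑ x : Low, (if i = x.1 then M z x.1 j else 0) = 0 := by
          refine Finset.sum_eq_zero (fun x _ => ?_)
          rw [if_neg]
          intro h
          exact hi (h ▸ x.2)
        rw [h1]
        by_cases hj : τ < Ψ j
        · have h2 : ∑ x : High, (if j = x.1 then (if Ψ i < -τ then (0 : K) else M z i x.1) else 0) =
              M z i j := by
            rw [Finset.sum_eq_single (⟨j, hj⟩ : High)]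
            · simp [hi]
            · intro b _ hb
              rw [if_neg]
              intro h
              exact hb (Subtype.ext h.symm)
            · intro h
              exact absurd (Finset.mem_univ _) h
          rw [h2]
          simp [hi, hj]
        · have h2 : ∑ x : High,
              (if j = x.1 then (if Ψ i < -τ then (0 : K) else M z i x.1) else 0) = 0 := by
            refine Finset.sum_eq_zero (fun x _ => ?_)
            rw [if_neg]
            intro h
            exact hj (h ▸ x.2)
          rw [h2]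
          simp [hi, hj]
    · intro i j h
      simp only [Matrix.of_apply] at h
      split_ifs at h with h1 h2
      · exact absurd rfl h
      · exact absurd rfl h
      · have h3 := hM z i j h
        rw [← hdiff] at h3
        linarith

end mono_family

lemma list_prod_range {A B : Type*} [CommMonoid B] (g : A → B) (a : A) (l : List A) :
    (l.map g).prod = ∏ t ∈ Finset.range l.length, g (l.getD t a) := by
  induction l with
  | nil => simp
  | cons b l ih =>
    rw [List.length_cons, Finset.prod_range_succ']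
    simp only [List.map_cons, List.prod_cons, List.getD_cons_succ, List.getD_cons_zero]
    rw [ih, mul_comm]

lemma exists_roots (m : ℕ) (hm : m ≠ 0) (hs : (X ^ m - 1 : K[X]).Splits) :
    ∃ ζ : ℕ → K, (X ^ m - 1 : K[X]) = ∏ t ∈ Finset.range m, (X - C (ζ t)) := by
  have hmon : (X ^ m - 1 : K[X]).Monic := by
    have := Polynomial.monic_X_pow_sub_C (1 : K) hm
    simpa using this
  have hdeg : (X ^ m - 1 : K[X]).natDegree = m := by
    have := Polynomial.natDegree_X_pow_sub_C (n := m) (r := (1 : K))
    simpa using this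
  have h1 := hs.eq_prod_roots_of_monic hmon
  have h2 := hs.natDegree_eq_card_roots
  refine ⟨fun t => (X ^ m - 1 : K[X]).roots.toList.getD t 0, ?_⟩
  have h3 := list_prod_range (fun a : K => (X - C a : K[X])) 0 (X ^ m - 1 : K[X]).roots.toList
  rw [Multiset.length_toList, ← h2, hdeg] at h3
  rw [← h3]
  conv_lhs => rw [h1]
  conv_lhs => rw [← Multiset.coe_toList (X ^ m - 1 : K[X]).roots]
  rw [Multiset.map_coe, Multiset.prod_coe]

lemma dvd_newt_mul (m : ℕ) (ζ : ℕ → K) (i i' : ℕ) (hi : i ≤ m) (hi' : i' ≤ m) (h : m ≤ i + i') :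
    (∏ t ∈ Finset.range m, (X - C (ζ t))) ∣ newt ζ i * newt (fun t => ζ (m - 1 - t)) i' := by
  have h1 : newt (fun t => ζ (m - 1 - t)) i' = ∏ t ∈ Finset.Ico (m - i') m, (X - C (ζ t)) := by
    unfold newt
    refine Finset.prod_bij' (fun t _ => m - 1 - t) (fun t _ => m - 1 - t) ?_ ?_ ?_ ?_ ?_
    · intro t ht
      simp only [Finset.mem_range, Finset.mem_Ico] at ht ⊢
      omega
    · intro t ht
      simp only [Finset.mem_range, Finset.mem_Ico] at ht ⊢
      omega
    · intro t ht
      simp only [Finset.mem_range] at ht ⊢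
      omega
    · intro t ht
      simp only [Finset.mem_Ico] at ht ⊢
      omega
    · intro t _
      rfl
  rw [h1]
  have h2 : ∏ t ∈ Finset.range m, (X - C (ζ t)) =
      (∏ t ∈ Finset.range (m - i'), (X - C (ζ t))) * ∏ t ∈ Finset.Ico (m - i') m, (X - C (ζ t)) := by
    rw [Finset.prod_range_mul_prod_Ico _ (by omega)]
  rw [h2]
  refine mul_dvd_mul_right ?_ _
  unfold newt
  exact Finset.prod_dvd_prod_of_subset _ _ _ (Finset.range_subset_range.mpr (by omega))

lemma small_one (m : ℕ) [NeZero m] (hs : (X ^ m - 1 : K[X]).Splits) :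
    ∃ (c c' : Fin m → Fin m → K) (ε : Fin m → Fin m → ZMod m → K),
      (∀ i j, c i j ≠ 0 → i ≤ j) ∧ (∀ i j, c' i j ≠ 0 → i ≤ j) ∧
      (∀ i i' z, ε i i' z ≠ 0 → (i : ℕ) + i' < m) ∧
      ∀ x y z : ZMod m, (if z = x + y then (1 : K) else 0) =
        ∑ i, ∑ i', c i ⟨x.val, x.val_lt⟩ * c' i' ⟨y.val, y.val_lt⟩ * ε i i' z := by
  classical
  have hm : m ≠ 0 := NeZero.ne m
  obtain ⟨ζ, hζ⟩ := exists_roots m hm hs
  let ζ' : ℕ → K := fun t => ζ (m - 1 - t)
  choose c hc h using fun j : ℕ => newton_expand ζ j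
  choose c' hc' h' using fun j : ℕ => newton_expand ζ' j
  let Ψ : K[X] →ₐ[K] AddMonoidAlgebra K (ZMod m) :=
    Polynomial.aeval (AddMonoidAlgebra.single (1 : ZMod m) (1 : K))
  have hΨX : ∀ a : ℕ, Ψ (X ^ a) = AddMonoidAlgebra.single ((a : ℕ) : ZMod m) (1 : K) := by
    intro a
    simp only [Ψ, map_pow, Polynomial.aeval_X]
    rw [AddMonoidAlgebra.single_pow]
    simp
  have hΨ0 : Ψ (X ^ m - 1) = 0 := by
    have h1 := hΨX m
    have h2 := hΨX 0
    rw [map_sub, h1]
    rw [pow_zero] at h2
    rw [h2]
    simp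
  refine ⟨fun i j => c j i, fun i j => c' j i, fun i i' z => (Ψ (newt ζ i * newt ζ' i')).coeff z,
    ?_, ?_, ?_, ?_⟩
  · intro i j hij
    by_contra hcon
    exact hij (hc j i (not_le.mp hcon))
  · intro i j hij
    by_contra hcon
    exact hij (hc' j i (not_le.mp hcon))
  · intro i i' z hne
    by_contra hcon
    apply hne
    have hdvd := dvd_newt_mul m ζ i i' i.2.le i'.2.le (not_lt.mp hcon)
    rw [← hζ] at hdvd
    obtain ⟨g, hg⟩ := hdvd
    show (Ψ (newt ζ i * newt ζ' i')).coeff z = 0
    rw [show newt ζ i * newt ζ' i' = (X ^ m - 1) * g from hg, map_mul, hΨ0, zero_mul]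
    rfl
  · intro x y z
    have e1 : (X : K[X]) ^ x.val * X ^ y.val =
        ∑ i : Fin m, ∑ i' : Fin m, C (c x.val i * c' y.val i') * (newt ζ i * newt ζ' i') := by
      rw [h x.val m x.val_lt, h' y.val m y.val_lt, Finset.sum_mul_sum,
        ← Fin.sum_univ_eq_sum_range (fun i => ∑ j ∈ Finset.range m,
          C (c x.val i) * newt ζ i * (C (c' y.val j) * newt ζ' j))]
      refine Finset.sum_congr rfl (fun i _ => ?_)
      rw [← Fin.sum_univ_eq_sum_range (fun j =>
          C (c x.val i) * newt ζ i * (C (c' y.val j) * newt ζ' j))]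
      refine Finset.sum_congr rfl (fun j _ => ?_)
      rw [C_mul]
      ring
    have e2 : Ψ ((X : K[X]) ^ x.val * X ^ y.val) = AddMonoidAlgebra.single (x + y) (1 : K) := by
      rw [← pow_add, hΨX]
      congr 1
      rw [Nat.cast_add, ZMod.natCast_zmod_val, ZMod.natCast_zmod_val]
    have e3 : (AddMonoidAlgebra.single (x + y) (1 : K) : AddMonoidAlgebra K (ZMod m)).coeff z =
        if z = x + y then (1 : K) else 0 := by
      rw [AddMonoidAlgebra.coeff_single, Finsupp.single_apply]
      simp only [eq_comm]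
    rw [← e3, ← e2, e1]
    rw [map_sum, AddMonoidAlgebra.coeff_sum, Finsupp.finsetSum_apply]
    refine Finset.sum_congr rfl (fun i _ => ?_)
    rw [map_sum, AddMonoidAlgebra.coeff_sum, Finsupp.finsetSum_apply]
    refine Finset.sum_congr rfl (fun i' _ => ?_)
    rw [← Polynomial.smul_eq_C_mul, map_smul, AddMonoidAlgebra.coeff_smul, Finsupp.smul_apply,
      smul_eq_mul]

/-- products of cyclic groups `ZMod (m p)` -/
theorem small_str {P : Type*} [Fintype P] [DecidableEq P] (m : P → ℕ) [∀ p, NeZero (m p)]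
    (hs : ∀ p, (X ^ m p - 1 : K[X]).Splits) (B τ L : ℝ) (hB : ∀ p, (m p : ℝ) ≤ B)
    (hτ : 0 ≤ τ) (hL : 0 ≤ L) :
    StrR (fun f : (∀ p, ZMod (m p)) → K => hank f)
      (3 * rkB (∏ p, (m p : ℝ)) (Fintype.card P) B τ) (spB (Fintype.card P) L B τ ^ 3) := by
  classical
  choose c c' ε hc hc' hε hsum using fun p => small_one (K := K) (m p) (hs p)
  let J := ∀ p, Fin (m p)
  let φ : (∀ p, ZMod (m p)) → J := fun x p => ⟨(x p).val, (x p).val_lt⟩
  have hφ : Function.Injective φ := by
    intro x y hxy
    funext p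
    have h1 := congrFun hxy p
    simp only [φ, Fin.mk.injEq] at h1
    exact ZMod.val_injective _ h1
  let CC : Matrix J J K := Matrix.of fun i j => ∏ p, c p (i p) (j p)
  let CC' : Matrix J J K := Matrix.of fun i j => ∏ p, c' p (i p) (j p)
  let E : ((∀ p, ZMod (m p)) → K) → Matrix J J K := fun f => Matrix.of fun i i' =>
    ∑ z, f z * ∏ p, ε p (i p) (i' p) (z p)
  let rv : J → J := fun j p => Fin.rev (j p)
  have hrv : Function.Injective rv := by
    intro x y hxy
    funext p
    have h1 := congrFun hxy p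
    exact Fin.rev_injective h1
  let E' : ((∀ p, ZMod (m p)) → K) → Matrix J J K := fun f => (E f).submatrix id rv
  have hmono_of_le : ∀ i j : J, (∀ p, i p ≤ j p) →
      (hammingDist i j : ℝ) ≤ ∑ p, (1 : ℝ) * ((j p : ℝ) - (i p : ℝ)) := by
    intro i j h1
    unfold hammingDist
    rw [Finset.card_filter]
    push_cast
    refine Finset.sum_le_sum (fun k _ => ?_)
    have h2 : (i k : ℕ) ≤ (j k : ℕ) := h1 k
    by_cases h3 : i k = j k
    · simp [h3]
    · have h4 : (i k : ℕ) ≠ (j k : ℕ) := fun h => h3 (Fin.ext h)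
      have h5 : (i k : ℕ) + 1 ≤ (j k : ℕ) := by omega
      have h6 : ((i k : ℕ) : ℝ) + 1 ≤ ((j k : ℕ) : ℝ) := by exact_mod_cast h5
      rw [if_pos h3]
      linarith
  have hB' : ∀ p, |(1 : ℝ)| * ((m p : ℝ) - 1) ≤ B := fun p => by
    rw [abs_one, one_mul]
    linarith [hB p]
  have d1 := decR_of_mono (K := K) (d := m) CC (fun _ => 1) B τ L B hτ hL hB hB' (by
    intro i j hij
    refine hmono_of_le i j (fun p => hc p _ _ (fun h0 => hij ?_))
    simp only [CC, Matrix.of_apply]
    exact Finset.prod_eq_zero (Finset.mem_univ p) h0)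
  have d2 := decR_of_mono (K := K) (d := m) CC' (fun _ => 1) B τ L B hτ hL hB hB' (by
    intro i j hij
    refine hmono_of_le i j (fun p => hc' p _ _ (fun h0 => hij ?_))
    simp only [CC', Matrix.of_apply]
    exact Finset.prod_eq_zero (Finset.mem_univ p) h0)
  have d3 := strR_of_mono (K := K) (d := m) E' (fun _ => 1) B τ L B hτ hL hB hB' (by
    intro f i j hij
    refine hmono_of_le i j (fun p => ?_)
    by_contra hcon
    apply hij
    simp only [E', E, Matrix.submatrix_apply, Matrix.of_apply, id_eq]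
    refine Finset.sum_eq_zero (fun z _ => ?_)
    rw [Finset.prod_eq_zero (Finset.mem_univ p), mul_zero]
    by_contra hne
    have h1 := hε p _ _ _ hne
    simp only [rv, Fin.val_rev] at h1
    have h2 : (j p : ℕ) < (i p : ℕ) := not_le.mp hcon
    have h3 := (j p).2
    omega)
  have d4 := d3.submatrix id rv Function.injective_id hrv
  have hE : (fun f => (E' f).submatrix id rv) = E := by
    funext f
    ext i j
    simp only [E', Matrix.submatrix_apply, id_eq, rv, Fin.rev_rev]
  rw [hE] at d4
  have d1' := (d1.submatrix id φ Function.injective_id hφ).transpose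
  have d2' := d2.submatrix id φ Function.injective_id hφ
  have s0 : (0 : ℝ) ≤ spB (Fintype.card P) L B τ := (spB_pos _ _ _ _).le
  have d5 := StrR.mul_right d2' d4 s0 s0
  have d6 := StrR.mul_left d1' d5 s0 (mul_nonneg s0 s0)
  have hfin : (fun f : (∀ p, ZMod (m p)) → K => hank f) =
      fun f => (CC.submatrix id φ)ᵀ * (E f * CC'.submatrix id φ) := by
    funext f
    ext x y
    rw [hank_apply, Matrix.mul_apply]
    simp_rw [Matrix.mul_apply]
    simp only [Matrix.transpose_apply, Matrix.submatrix_apply, id_eq, CC, CC', E, Matrix.of_apply]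
    have h1 : f (x + y) = ∑ z, f z * (if z = x + y then (1 : K) else 0) := by simp
    have h2 : ∀ z : (∀ p, ZMod (m p)), (if z = x + y then (1 : K) else 0) =
        ∏ p, (if z p = x p + y p then (1 : K) else 0) := by
      intro z
      by_cases h : z = x + y
      · simp [h]
      · rw [if_neg h]
        obtain ⟨p, hp⟩ := Function.ne_iff.mp h
        exact (Finset.prod_eq_zero (Finset.mem_univ p) (by
          rw [if_neg]; exact hp)).symm
    have h3 : ∀ z : (∀ p, ZMod (m p)), (if z = x + y then (1 : K) else 0) =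
        ∑ i : J, ∑ i' : J, (∏ p, c p (i p) (φ x p)) * (∏ p, c' p (i' p) (φ y p)) *
          ∏ p, ε p (i p) (i' p) (z p) := by
      intro z
      rw [h2]
      have h4 : ∀ p, (if z p = x p + y p then (1 : K) else 0) =
          ∑ i, ∑ i', c p i (φ x p) * c' p i' (φ y p) * ε p i i' (z p) :=
        fun p => hsum p (x p) (y p) (z p)
      simp_rw [h4]
      rw [Finset.prod_univ_sum, Fintype.piFinset_univ]
      refine Finset.sum_congr rfl (fun i _ => ?_)
      rw [Finset.prod_univ_sum, Fintype.piFinset_univ]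
      refine Finset.sum_congr rfl (fun i' _ => ?_)
      rw [Finset.prod_mul_distrib, Finset.prod_mul_distrib]
    rw [h1]
    simp_rw [h3]
    simp_rw [Finset.mul_sum, Finset.sum_mul, Finset.mul_sum]
    rw [Finset.sum_comm]
    refine Finset.sum_congr rfl (fun i _ => ?_)
    rw [Finset.sum_comm]
    refine Finset.sum_congr rfl (fun i' _ => Finset.sum_congr rfl (fun z _ => ?_))
    ring
  rw [hfin]
  exact d6.mono (le_of_eq (by ring)) (le_of_eq (by ring))

end Pool.Agent.Lib.MP_d64ee4_lc
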