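import Pool.Agent.Lib.MP_d64ee4_lc.Mono

set_option autoImplicit false
set_option linter.unusedSectionVars false

/-!
# Changes of linear coordinates act monotonically on reduced monomials
-/

namespace Pool.Agent.Lib.MP_d64ee4_lc

open Matrix

variable {K : Type*} [Field K] {ι : Type*} [Fintype ι] [DecidableEq ι] {X : Type*}

/-- the monomial function with exponents `m` -/
def ymon (y : ι → X → K) (m : ι → ℕ) : X → K := fun x => ∏ k, y k x ^ m k

/-- `q`-th powers of coordinates are linear combinations of coordinates -/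
def FrobClosed (q : ℕ) (y : ι → X → K) : Prop :=
  ∀ k, ∃ σ : ι → K, ∀ x, y k x ^ q = ∑ l, σ l * y l x

/-- potential order on exponents -/
def PRel (w : ι → ℕ) (i m : ι → ℕ) : Prop :=
  hammingDist i m + ∑ k, w k * i k ≤ ∑ k, w k * m k

lemma PRel.refl (w : ι → ℕ) (m : ι → ℕ) : PRel w m m := by
  unfold PRel; simp

lemma PRel.trans {w : ι → ℕ} {a b c : ι → ℕ} (h1 : PRel w a b) (h2 : PRel w b c) :
    PRel w a c := by
  unfold PRel at *
  have := hammingDist_triangle a b c
  omega

lemma sum_add_single (w m : ι → ℕ) (l : ι) (c : ℕ) :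
    ∑ p, w p * (m + Pi.single l c : ι → ℕ) p = (∑ p, w p * m p) + w l * c := by
  simp only [Pi.add_apply, mul_add, Finset.sum_add_distrib]
  congr 1
  rw [Finset.sum_eq_single l]
  · simp
  · intro b _ hb
    simp [Pi.single_eq_of_ne hb]
  · intro h
    exact absurd (Finset.mem_univ _) h

lemma hammingDist_le_two (a b : ι → ℕ) (k l : ι) (h : ∀ p, p ≠ k → p ≠ l → a p = b p) :
    hammingDist a b ≤ 2 := by
  unfold hammingDist
  refine (Finset.card_le_card (t := {k, l}) (fun p hp => ?_)).trans Finset.card_le_two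
  simp only [Finset.mem_filter, Finset.mem_univ, true_and] at hp
  simp only [Finset.mem_insert, Finset.mem_singleton]
  by_contra hcon
  push Not at hcon
  exact hp (h p hcon.1 hcon.2)

lemma PRel.step (w m : ι → ℕ) (k l : ι) (a b : ℕ) (h : w l * b + 2 ≤ w k * a) :
    PRel w (m + Pi.single l b) (m + Pi.single k a) := by
  unfold PRel
  rw [sum_add_single, sum_add_single]
  have := hammingDist_le_two (m + Pi.single l b : ι → ℕ) (m + Pi.single k a) k l (by
    intro p hp hp'
    simp [Pi.single_eq_of_ne hp, Pi.single_eq_of_ne hp'])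
  omega

lemma PRel.add {w a b : ι → ℕ} (h : PRel w a b) (k : ι) (c : ℕ) :
    PRel w (a + Pi.single k c) (b + Pi.single k c) := by
  unfold PRel at *
  rw [sum_add_single, sum_add_single]
  have : hammingDist (a + Pi.single k c : ι → ℕ) (b + Pi.single k c) = hammingDist a b := by
    have := hammingDist_comp (fun p (n : ℕ) => n + (Pi.single k c : ι → ℕ) p) (x := a) (y := b)
      (fun p => add_left_injective _)
    exact this
  omega

/-- span of reduced monomials below `m` -/
def SS (q : ℕ) (w : ι → ℕ) (y : ι → X → K) (m : ι → ℕ) : Submodule K (X → K) :=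
  Submodule.span K (Set.range fun i : {i : ι → Fin q // PRel w (fun k => (i k : ℕ)) m} =>
    ymon y (fun k => (i.1 k : ℕ)))

lemma SS_mono {q : ℕ} {w : ι → ℕ} {y : ι → X → K} {a b : ι → ℕ} (h : PRel w a b) :
    SS q w y a ≤ SS q w y b := by
  refine Submodule.span_mono ?_
  rintro _ ⟨i, rfl⟩
  exact ⟨⟨i.1, i.2.trans h⟩, rfl⟩

lemma ymon_add_single (y : ι → X → K) (m : ι → ℕ) (k : ι) (c : ℕ) (x : X) :
    ymon y (m + Pi.single k c) x = ymon y m x * y k x ^ c := by
  unfold ymon
  simp only [Pi.add_apply, pow_add, Finset.prod_mul_distrib]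
  congr 1
  rw [Finset.prod_eq_single k]
  · simp
  · intro b _ hb
    simp [Pi.single_eq_of_ne hb]
  · intro h
    exact absurd (Finset.mem_univ _) h

lemma exists_eq_add_single (m : ι → ℕ) (k : ι) (c : ℕ) (h : c ≤ m k) :
    ∃ m₀ : ι → ℕ, m = m₀ + Pi.single k c := by
  refine ⟨fun p => m p - (Pi.single k c : ι → ℕ) p, ?_⟩
  funext p
  simp only [Pi.add_apply]
  by_cases hp : p = k
  · subst hp
    simp only [Pi.single_eq_same]
    omega
  · simp [Pi.single_eq_of_ne hp]

theorem ymon_mem_SS (q : ℕ) (w : ι → ℕ) (y : ι → X → K) (hy : FrobClosed q y)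
    (hw : ∀ k l, w l + 2 ≤ w k * q) (m : ι → ℕ) : ymon y m ∈ SS q w y m := by
  induction h : (∑ k, w k * m k) using Nat.strong_induction_on generalizing m with
  | _ n ih =>
    by_cases hall : ∀ k, m k < q
    · refine Submodule.subset_span ⟨⟨fun k => ⟨m k, hall k⟩, PRel.refl w m⟩, rfl⟩
    · push Not at hall
      obtain ⟨k, hk⟩ := hall
      obtain ⟨m₀, rfl⟩ := exists_eq_add_single m k q hk
      obtain ⟨σ, hσ⟩ := hy k
      have h1 : ymon y (m₀ + Pi.single k q) = ∑ l, σ l • ymon y (m₀ + Pi.single l 1) := by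
        funext x
        rw [ymon_add_single, hσ, Finset.mul_sum, Finset.sum_apply]
        refine Finset.sum_congr rfl (fun l _ => ?_)
        rw [Pi.smul_apply, ymon_add_single, smul_eq_mul, pow_one]
        ring
      rw [h1]
      refine Submodule.sum_mem _ (fun l _ => Submodule.smul_mem _ _ ?_)
      have hrel : PRel w (m₀ + Pi.single l 1) (m₀ + Pi.single k q) :=
        PRel.step w m₀ k l q 1 (by have := hw k l; omega)
      refine SS_mono hrel (ih _ ?_ _ rfl)
      rw [← h, sum_add_single, sum_add_single]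
      have := hw k l
      omega

/-- span of all monomials below `j` -/
def TT (w : ι → ℕ) (y : ι → X → K) (j : ι → ℕ) : Submodule K (X → K) :=
  Submodule.span K (Set.range fun m : {m : ι → ℕ // PRel w m j} => ymon y m.1)

theorem ymon_change_mem_TT (w : ι → ℕ) (y y' : ι → X → K) (C : ι → ι → K)
    (hC : ∀ k l, C k l ≠ 0 → k = l ∨ w l + 2 ≤ w k)
    (hy' : ∀ k x, y' k x = ∑ l, C k l * y l x) (j : ι → ℕ) : ymon y' j ∈ TT w y j := by
  induction h : (∑ k, j k) using Nat.strong_induction_on generalizing j with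
  | _ n ih =>
    by_cases hall : ∀ k, j k = 0
    · refine Submodule.subset_span ⟨⟨j, PRel.refl w j⟩, ?_⟩
      funext x
      simp [ymon, hall]
    · push Not at hall
      obtain ⟨k, hk⟩ := hall
      obtain ⟨j₀, rfl⟩ := exists_eq_add_single j k 1 (by omega)
      have h1 := ih (∑ k, j₀ k) (by
        rw [← h]
        have := sum_add_single (fun _ => 1) j₀ k 1
        simp only [one_mul] at this
        rw [this]
        omega) j₀ rfl
      have h2 : ymon y' (j₀ + Pi.single k 1) = LinearMap.mulRight K (y' k) (ymon y' j₀) := by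
        funext x
        rw [ymon_add_single, pow_one, LinearMap.mulRight_apply, Pi.mul_apply]
      rw [h2]
      have h4 : TT w y j₀ ≤ (TT w y (j₀ + Pi.single k 1)).comap (LinearMap.mulRight K (y' k)) := by
        refine Submodule.span_le.mpr ?_
        rintro _ ⟨⟨m, hm⟩, rfl⟩
        have h3 : (LinearMap.mulRight K (y' k)) (ymon y m) =
            ∑ l, C k l • ymon y (m + Pi.single l 1) := by
          funext x
          rw [LinearMap.mulRight_apply, Pi.mul_apply, hy', Finset.mul_sum, Finset.sum_apply]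
          refine Finset.sum_congr rfl (fun l _ => ?_)
          rw [Pi.smul_apply, ymon_add_single, smul_eq_mul, pow_one]
          ring
        show (LinearMap.mulRight K (y' k)) (ymon y m) ∈ TT w y (j₀ + Pi.single k 1)
        rw [h3]
        refine Submodule.sum_mem _ (fun l _ => ?_)
        by_cases hc : C k l = 0
        · rw [hc, zero_smul]
          exact Submodule.zero_mem _
        · have hm' : PRel w (m + Pi.single l 1) (j₀ + Pi.single k 1) := by
            rcases hC k l hc with hkl | hw
            · rw [← hkl]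
              exact hm.add k 1
            · exact (PRel.step w m k l 1 1 (by omega)).trans (hm.add k 1)
          refine Submodule.smul_mem _ _ (Submodule.subset_span ?_)
          exact Set.mem_range_self (f := fun m : {m : ι → ℕ // PRel w m (j₀ + Pi.single k 1)} =>
            ymon y m.1) ⟨m + Pi.single l 1, hm'⟩
      exact h4 h1

theorem ymon_change_mem_SS (q : ℕ) (w : ι → ℕ) (y y' : ι → X → K) (C : ι → ι → K)
    (hy : FrobClosed q y) (hw : ∀ k l, w l + 2 ≤ w k * q)
    (hC : ∀ k l, C k l ≠ 0 → k = l ∨ w l + 2 ≤ w k)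
    (hy' : ∀ k x, y' k x = ∑ l, C k l * y l x) (j : ι → ℕ) : ymon y' j ∈ SS q w y j := by
  refine Submodule.span_le.mpr ?_ (ymon_change_mem_TT w y y' C hC hy' j)
  rintro _ ⟨⟨m, hm⟩, rfl⟩
  exact SS_mono hm (ymon_mem_SS q w y hy hw m)

/-- evaluation matrix of reduced monomials -/
def evalMat (q : ℕ) (y : ι → X → K) : Matrix X (ι → Fin q) K :=
  Matrix.of fun x j => ∏ k, y k x ^ (j k : ℕ)

/-- the stage lemma -/
theorem stage (q : ℕ) (w : ι → ℕ) (y y' : ι → X → K) (C : ι → ι → K)
    (hy : FrobClosed q y) (hw : ∀ k l, w l + 2 ≤ w k * q)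
    (hC : ∀ k l, C k l ≠ 0 → k = l ∨ w l + 2 ≤ w k)
    (hy' : ∀ k x, y' k x = ∑ l, C k l * y l x) :
    ∃ T : Matrix (ι → Fin q) (ι → Fin q) K, evalMat q y' = evalMat q y * T ∧
      ∀ i j, T i j ≠ 0 → (hammingDist i j : ℝ) ≤ ∑ p, (w p : ℝ) * ((j p : ℝ) - (i p : ℝ)) := by
  classical
  have h := fun j : ι → Fin q => ymon_change_mem_SS q w y y' C hy hw hC hy' (fun k => (j k : ℕ))
  unfold SS at h
  simp_rw [Submodule.mem_span_range_iff_exists_fun] at h
  choose c hc using h
  refine ⟨Matrix.of fun i j => if hi : PRel w (fun k => (i k : ℕ)) (fun k => (j k : ℕ)) then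
    c j ⟨i, hi⟩ else 0, ?_, ?_⟩
  · ext x j
    rw [Matrix.mul_apply]
    have h1 := congrFun (hc j) x
    have h2 : evalMat q y' x j = ymon y' (fun k => (j k : ℕ)) x := rfl
    rw [h2, ← h1, Finset.sum_apply]
    set P : (ι → Fin q) → Prop := fun i => PRel w (fun k => (i k : ℕ)) (fun k => (j k : ℕ)) with hP
    have h5 : ∑ i : ι → Fin q, evalMat q y x i * (if hi : P i then c j ⟨i, hi⟩ else 0) =
        ∑ i ∈ Finset.univ.filter P, evalMat q y x i * (if hi : P i then c j ⟨i, hi⟩ else 0) := by
      symm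
      refine Finset.sum_subset (Finset.filter_subset _ _) (fun i _ hi => ?_)
      simp only [Finset.mem_filter, Finset.mem_univ, true_and] at hi
      rw [dif_neg hi, mul_zero]
    have h6 := Finset.sum_subtype (F := inferInstance) (Finset.univ.filter P) (p := P) (by simp)
      (fun i => evalMat q y x i * (if hi : P i then c j ⟨i, hi⟩ else 0))
    simp only [Matrix.of_apply]
    rw [h5, h6]
    refine Finset.sum_congr rfl (fun i _ => ?_)
    rw [dif_pos i.2, Pi.smul_apply, smul_eq_mul, mul_comm]
    rfl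
  · intro i j hij
    simp only [Matrix.of_apply, ne_eq, dite_eq_right_iff, not_forall] at hij
    obtain ⟨hi, _⟩ := hij
    unfold PRel at hi
    have h3 : hammingDist (fun k => (i k : ℕ)) (fun k => (j k : ℕ)) = hammingDist i j :=
      hammingDist_comp (fun _ (n : Fin q) => (n : ℕ)) (fun _ => Fin.val_injective)
    rw [h3] at hi
    have h4 : ((hammingDist i j : ℕ) : ℝ) + ∑ k, (w k : ℝ) * (i k : ℝ) ≤ ∑ k, (w k : ℝ) * (j k : ℝ) := by
      exact_mod_cast hi
    simp only [mul_sub, Finset.sum_sub_distrib]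
    linarith

end Pool.Agent.Lib.MP_d64ee4_lc
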