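import Pool.Agent.Lib.MP_d64ee4_lc.Newton

set_option autoImplicit false
set_option linter.unusedSectionVars false

/-!
# The evaluation matrix of a finite field is low rank plus sparse
-/

namespace Pool.Agent.Lib.MP_d64ee4_lc

open Matrix

universe u v

variable {K : Type*} [Field K]

/-- base case: coordinates with values in the fixed field of `x ↦ x ^ q` -/
theorem base_case (q : ℕ) (hq : 1 ≤ q) (α : Fin q → K) (hα : ∀ x : K, x ^ q = x → ∃ l, α l = x)
    {ι : Type u} [Fintype ι] [DecidableEq ι] {X : Type v} [Fintype X] (y : ι → X → K)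
    (hy : ∀ k x, y k x ^ q = y k x) (hinj : Function.Injective fun (x : X) (k : ι) => y k x)
    (τ L : ℝ) (hτ : 0 ≤ τ) (hL : 0 ≤ L) :
    DecR (evalMat q y) (2 * rkB ((q : ℝ) ^ Fintype.card ι) (Fintype.card ι) (6 * ((q : ℝ) - 1)) τ)
      (spB (Fintype.card ι) L q τ ^ 2) := by
  obtain ⟨N, c, hN, hc, hNc⟩ := newton_fin q α
  choose l hl using fun (x : X) (k : ι) => hα (y k x) (hy k x)
  have hlinj : Function.Injective l := by
    intro x x' h
    apply hinj
    funext k
    simp only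
    rw [← hl x k, ← hl x' k, h]
  let NN : Matrix (ι → Fin q) (ι → Fin q) K := Matrix.of fun a i => ∏ k, N (a k) (i k)
  let CC : Matrix (ι → Fin q) (ι → Fin q) K := Matrix.of fun i j => ∏ k, c (i k) (j k)
  have hfac : evalMat q y = (NN.submatrix l id) * CC := by
    ext x j
    rw [Matrix.mul_apply]
    simp only [evalMat, Matrix.of_apply, Matrix.submatrix_apply, id_eq, NN, CC]
    have h1 : ∀ k, y k x ^ (j k : ℕ) = ∑ i, N (l x k) i * c i (j k) := by
      intro k
      rw [← hNc, hl]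
    simp_rw [h1]
    rw [Finset.prod_univ_sum, Fintype.piFinset_univ]
    refine Finset.sum_congr rfl (fun i _ => ?_)
    rw [Finset.prod_mul_distrib]
  have hq' : (1 : ℝ) ≤ q := by exact_mod_cast hq
  have hprod : (∏ _p : ι, (q : ℝ)) = (q : ℝ) ^ Fintype.card ι := by
    rw [Finset.prod_const, Finset.card_univ]
  have hdN : DecR NN (rkB ((q : ℝ) ^ Fintype.card ι) (Fintype.card ι) (6 * ((q : ℝ) - 1)) τ)
      (spB (Fintype.card ι) L q τ) := by
    have := decR_of_mono (K := K) (d := fun _ : ι => q) NN (fun _ => -1) (6 * ((q : ℝ) - 1)) τ L q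
      hτ hL (fun _ => le_rfl) (fun p => by
        rw [abs_neg, abs_one, one_mul]; linarith) (by
        intro i j hij
        have h1 : ∀ k, j k ≤ i k := by
          intro k
          apply hN
          intro h0
          apply hij
          simp only [NN, Matrix.of_apply]
          exact Finset.prod_eq_zero (Finset.mem_univ k) h0
        unfold hammingDist
        rw [Finset.card_filter]
        push_cast
        refine Finset.sum_le_sum (fun k _ => ?_)
        have h2 : (j k : ℕ) ≤ (i k : ℕ) := h1 k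
        by_cases h3 : i k = j k
        · simp [h3]
        · have h4 : (j k : ℕ) ≠ (i k : ℕ) := fun h => h3 (Fin.ext h.symm)
          have h5 : (j k : ℕ) + 1 ≤ (i k : ℕ) := by omega
          have h6 : ((j k : ℕ) : ℝ) + 1 ≤ ((i k : ℕ) : ℝ) := by exact_mod_cast h5
          rw [if_pos h3]
          linarith)
    rw [hprod] at this
    exact this
  have hdC : DecR CC (rkB ((q : ℝ) ^ Fintype.card ι) (Fintype.card ι) (6 * ((q : ℝ) - 1)) τ)
      (spB (Fintype.card ι) L q τ) := by
    have := decR_of_mono (K := K) (d := fun _ : ι => q) CC (fun _ => 1) (6 * ((q : ℝ) - 1)) τ L q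
      hτ hL (fun _ => le_rfl) (fun p => by
        rw [abs_one, one_mul]; linarith) (by
        intro i j hij
        have h1 : ∀ k, i k ≤ j k := by
          intro k
          apply hc
          intro h0
          apply hij
          simp only [CC, Matrix.of_apply]
          exact Finset.prod_eq_zero (Finset.mem_univ k) h0
        unfold hammingDist
        rw [Finset.card_filter]
        push_cast
        refine Finset.sum_le_sum (fun k _ => ?_)
        have h2 : (i k : ℕ) ≤ (j k : ℕ) := h1 k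
        by_cases h3 : i k = j k
        · simp [h3]
        · have h4 : (i k : ℕ) ≠ (j k : ℕ) := fun h => h3 (Fin.ext h)
          have h5 : (i k : ℕ) + 1 ≤ (j k : ℕ) := by omega
          have h6 : ((i k : ℕ) : ℝ) + 1 ≤ ((j k : ℕ) : ℝ) := by exact_mod_cast h5
          rw [if_pos h3]
          linarith)
    rw [hprod] at this
    exact this
  rw [hfac]
  have := (hdN.submatrix l id hlinj Function.injective_id).mul hdC (spB_pos _ _ _ _).le
    (spB_pos _ _ _ _).le
  rw [two_mul, pow_two]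
  exact this

/-- the ring homomorphism `x ↦ x ^ (q ^ n)` -/
def frobPow (q : ℕ) (hq : q ≠ 0) (hadd : ∀ x y : K, (x + y) ^ q = x ^ q + y ^ q) (n : ℕ) :
    K →+* K where
  toFun x := x ^ q ^ n
  map_one' := one_pow _
  map_mul' x y := mul_pow _ _ _
  map_zero' := zero_pow (pow_ne_zero _ hq)
  map_add' x y := by
    induction n with
    | zero => simp
    | succ n ih => rw [pow_succ, pow_mul, pow_mul, pow_mul, ih, hadd]

lemma frobPow_apply (q : ℕ) (hq : q ≠ 0) (hadd : ∀ x y : K, (x + y) ^ q = x ^ q + y ^ q) (n : ℕ)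
    (x : K) : frobPow q hq hadd n x = x ^ q ^ n := rfl

/-- decomposition along a quadratic extension -/
lemma quad_split (q : ℕ) (hq : q ≠ 0) (hadd : ∀ x y : K, (x + y) ^ q = x ^ q + y ^ q) (s : ℕ)
    (ω : K) (hω : ω ^ (q ^ 2 ^ (s + 1)) = ω) (hω' : ω ^ (q ^ 2 ^ s) ≠ ω) (z : K)
    (hz : z ^ (q ^ 2 ^ (s + 1)) = z) :
    ∃ u v : K, u ^ (q ^ 2 ^ s) = u ∧ v ^ (q ^ 2 ^ s) = v ∧ z = u + ω * v := by
  have hpow : ∀ x : K, x ^ (q ^ 2 ^ (s + 1)) = (x ^ (q ^ 2 ^ s)) ^ (q ^ 2 ^ s) := by
    intro x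
    rw [← pow_mul, ← pow_add]
    congr 2
    ring
  set φ := frobPow q hq hadd (2 ^ s) with hφ
  have hφa : ∀ x, φ x = x ^ (q ^ 2 ^ s) := fun x => rfl
  have hωω : φ (φ ω) = ω := by rw [hφa, hφa, ← hpow, hω]
  have hzz : φ (φ z) = z := by rw [hφa, hφa, ← hpow, hz]
  have hd : ω - φ ω ≠ 0 := by
    intro h
    exact hω' (sub_eq_zero.mp h).symm
  have hd' : φ ω - ω ≠ 0 := fun h => hω' (sub_eq_zero.mp h)
  have hv : φ ((z - φ z) / (ω - φ ω)) = (z - φ z) / (ω - φ ω) := by
    rw [map_div₀, map_sub, map_sub, hωω, hzz]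
    rw [div_eq_div_iff hd' hd]
    ring
  refine ⟨z - ω * ((z - φ z) / (ω - φ ω)), (z - φ z) / (ω - φ ω), ?_, ?_, by ring⟩
  · rw [← hφa, map_sub, map_mul, hv]
    field_simp
    ring
  · rw [← hφa, hv]

/-- a stage in which every coordinate is mixed with at most one other coordinate -/
theorem stage_flip {ι : Type u} [Fintype ι] [DecidableEq ι] {X : Type v}
    (q : ℕ) (w : ι → ℕ) (y y' : ι → X → K) (σ : ι → ι) (a b : ι → K)
    (hy : FrobClosed q y) (hw : ∀ k l, w l + 2 ≤ w k * q)
    (hb : ∀ k, b k ≠ 0 → w (σ k) + 2 ≤ w k)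
    (hy' : ∀ k x, y' k x = a k * y k x + b k * y (σ k) x) :
    ∃ T : Matrix (ι → Fin q) (ι → Fin q) K, evalMat q y' = evalMat q y * T ∧
      ∀ i j, T i j ≠ 0 → (hammingDist i j : ℝ) ≤ ∑ p, (w p : ℝ) * ((j p : ℝ) - (i p : ℝ)) := by
  refine stage q w y y' (fun k l => (if l = k then a k else 0) + (if l = σ k then b k else 0))
    hy hw ?_ ?_
  · intro k l h
    by_cases h1 : l = k
    · left; exact h1.symm
    · right
      rw [if_neg h1, zero_add] at h
      by_cases h2 : l = σ k
      · rw [if_pos h2] at h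
        rw [h2]
        exact hb k h
      · rw [if_neg h2] at h
        exact absurd rfl h
  · intro k x
    rw [hy']
    simp [add_mul, Finset.sum_add_distrib]

theorem decR_stage {ι : Type u} [Fintype ι] [DecidableEq ι] {X : Type v} [Fintype X]
    (q : ℕ) (hq : 1 ≤ q) (w : ι → ℕ) (hw6 : ∀ k, w k ≤ 6) (y y' : ι → X → K)
    (T : Matrix (ι → Fin q) (ι → Fin q) K) (hT : evalMat q y' = evalMat q y * T)
    (hT' : ∀ i j, T i j ≠ 0 →
      (hammingDist i j : ℝ) ≤ ∑ p, (w p : ℝ) * ((j p : ℝ) - (i p : ℝ)))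
    (τ L : ℝ) (hτ : 0 ≤ τ) (hL : 0 ≤ L) {r s : ℝ} (hs : 0 ≤ s)
    (h : DecR (evalMat q y) r s) :
    DecR (evalMat q y')
      (r + rkB ((q : ℝ) ^ Fintype.card ι) (Fintype.card ι) (6 * ((q : ℝ) - 1)) τ)
      (s * spB (Fintype.card ι) L q τ) := by
  rw [hT]
  have hq' : (1 : ℝ) ≤ q := by exact_mod_cast hq
  have hdT := decR_of_mono (K := K) (d := fun _ : ι => q) T (fun p => (w p : ℝ))
    (6 * ((q : ℝ) - 1)) τ L q hτ hL (fun _ => le_rfl) (fun p => by
      rw [Nat.abs_cast]
      have : (w p : ℝ) ≤ 6 := by exact_mod_cast hw6 p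
      nlinarith) hT'
  rw [Finset.prod_const, Finset.card_univ] at hdT
  exact h.mul hdT hs (spB_pos _ _ _ _).le

end Pool.Agent.Lib.MP_d64ee4_lc
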