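import Pool.Agent.Lib.MP_d64ee4_lc.Tower

set_option autoImplicit false
set_option linter.unusedSectionVars false

/-!
# Induction along the tower of quadratic extensions
-/

namespace Pool.Agent.Lib.MP_d64ee4_lc

open Matrix

universe u v

variable {K : Type*} [Field K]

/-- index bookkeeping -/
def splitEquiv (κ : Type u) (s : ℕ) : κ × Fin (2 ^ (s + 1)) ≃ (κ × Fin 2) × Fin (2 ^ s) :=
  ((Equiv.refl κ).prodCongr ((finCongr (by rw [pow_succ, mul_comm])).trans
    (finProdFinEquiv (m := 2) (n := 2 ^ s)).symm)).trans (Equiv.prodAssoc κ (Fin 2) (Fin (2 ^ s))).symm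

lemma splitEquiv_symm_apply (κ : Type u) (s : ℕ) (k : κ) (ε : Fin 2) (a : Fin (2 ^ s)) :
    ((splitEquiv κ s).symm ((k, ε), a)).1 = k ∧
    (((splitEquiv κ s).symm ((k, ε), a)).2 : ℕ) = (a : ℕ) + 2 ^ s * ε := by
  simp [splitEquiv, finProdFinEquiv]

lemma evalMat_reindex {ι ι' : Type u} [Fintype ι] [Fintype ι'] [DecidableEq ι] [DecidableEq ι']
    {X : Type v} (q : ℕ) (e : ι ≃ ι') (y : ι → X → K) (y' : ι' → X → K)
    (h : ∀ i' x, y' i' x = y (e.symm i') x) :
    evalMat q y = (evalMat q y').submatrix id (fun j i' => j (e.symm i')) := by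
  ext x j
  simp only [evalMat, Matrix.of_apply, Matrix.submatrix_apply, id_eq, h]
  exact (Equiv.prod_comp e.symm (fun k => y k x ^ (j k : ℕ))).symm

lemma frobClosed_of_fixed {κ : Type u} [Fintype κ] [DecidableEq κ] {X : Type v} (q s : ℕ)
    (z : κ → X → K) (hz : ∀ k x, z k x ^ (q ^ 2 ^ s) = z k x) :
    FrobClosed q (fun (ka : κ × Fin (2 ^ s)) x => z ka.1 x ^ (q ^ (ka.2 : ℕ))) := by
  rintro ⟨k, a⟩
  by_cases h : (a : ℕ) + 1 < 2 ^ s
  · refine ⟨fun l => if l = (k, ⟨a + 1, h⟩) then 1 else 0, fun x => ?_⟩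
    simp only [ite_mul, one_mul, zero_mul, Finset.sum_ite_eq', Finset.mem_univ, if_true]
    rw [← pow_mul, pow_succ]
  · have h2 : (a : ℕ) + 1 = 2 ^ s := by have := a.2; omega
    refine ⟨fun l => if l = (k, ⟨0, Nat.two_pow_pos s⟩) then 1 else 0, fun x => ?_⟩
    simp only [ite_mul, one_mul, zero_mul, Finset.sum_ite_eq', Finset.mem_univ, if_true]
    rw [← pow_mul, ← pow_succ, h2, hz]
    simp

theorem tower (q : ℕ) (hq : 2 ≤ q) (hadd : ∀ x y : K, (x + y) ^ q = x ^ q + y ^ q)
    (α : Fin q → K) (hα : ∀ x : K, x ^ q = x → ∃ l, α l = x) (s : ℕ)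
    (hω : ∀ t < s, ∃ ω : K, ω ^ (q ^ 2 ^ (t + 1)) = ω ∧ ω ^ (q ^ 2 ^ t) ≠ ω)
    (κ : Type u) [Fintype κ] [DecidableEq κ] (X : Type v) [Fintype X] (z : κ → X → K)
    (hz : ∀ k x, z k x ^ (q ^ 2 ^ s) = z k x)
    (hinj : Function.Injective fun (x : X) (k : κ) => z k x)
    (τ L : ℝ) (hτ : 0 ≤ τ) (hL : 0 ≤ L) :
    DecR (evalMat q (fun (ka : κ × Fin (2 ^ s)) x => z ka.1 x ^ (q ^ (ka.2 : ℕ))))
      ((2 * s + 2) * rkB ((q : ℝ) ^ (Fintype.card κ * 2 ^ s)) (Fintype.card κ * 2 ^ s)
        (6 * ((q : ℝ) - 1)) τ)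
      (spB (Fintype.card κ * 2 ^ s) L q τ ^ (2 * s + 2)) := by
  induction s generalizing κ with
  | zero =>
    have h := base_case q (by omega) α hα
      (fun (ka : κ × Fin (2 ^ 0)) (x : X) => z ka.1 x ^ (q ^ (ka.2 : ℕ))) ?_ ?_ τ L hτ hL
    · have hcard : Fintype.card (κ × Fin (2 ^ 0)) = Fintype.card κ * 2 ^ 0 := by
        rw [Fintype.card_prod, Fintype.card_fin]
      rw [hcard] at h
      simpa using h
    · rintro ⟨k, a⟩ x
      have h1 := hz k x
      simp only [pow_zero, pow_one] at h1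
      simp only
      rw [← pow_mul, mul_comm, pow_mul, h1]
    · intro x x' h
      apply hinj
      funext k
      have h1 := congrFun h (k, ⟨0, by norm_num⟩)
      simpa using h1
  | succ s ih =>
    have hq0 : q ≠ 0 := by omega
    obtain ⟨ω, hω1, hω2⟩ := hω s (by omega)
    have hsplit := fun (k : κ) (x : X) => quad_split q hq0 hadd s ω hω1 hω2 (z k x) (hz k x)
    choose U V hU hV hUV using hsplit
    let z' : κ × Fin 2 → X → K := fun kε x => if kε.2 = 0 then U kε.1 x else V kε.1 x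
    have hz' : ∀ kε x, z' kε x ^ (q ^ 2 ^ s) = z' kε x := by
      rintro ⟨k, ε⟩ x
      simp only [z']
      split_ifs
      · exact hU k x
      · exact hV k x
    have hinj' : Function.Injective fun (x : X) (k : κ × Fin 2) => z' k x := by
      intro x x' h
      apply hinj
      funext k
      have h0 := congrFun h (k, 0)
      have h1 := congrFun h (k, 1)
      simp only [z', if_true, Fin.one_eq_zero_iff, OfNat.ofNat_ne_one, if_false] at h0 h1
      simp only
      rw [hUV k x, hUV k x', h0, h1]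
    have hdec := ih (fun t ht => hω t (by omega)) (κ × Fin 2) z' hz' hinj'
    have hn : Fintype.card (κ × Fin 2) * 2 ^ s = Fintype.card κ * 2 ^ (s + 1) := by
      rw [Fintype.card_prod, Fintype.card_fin, pow_succ]; ring
    have hnI : Fintype.card ((κ × Fin 2) × Fin (2 ^ s)) = Fintype.card κ * 2 ^ (s + 1) := by
      rw [← hn, Fintype.card_prod (κ × Fin 2), Fintype.card_fin]
    rw [hn] at hdec
    -- the three coordinate systems
    set y0 : (κ × Fin 2) × Fin (2 ^ s) → X → K :=
      fun (ka : (κ × Fin 2) × Fin (2 ^ s)) x => z' ka.1 x ^ (q ^ (ka.2 : ℕ)) with hy0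
    let y1 : (κ × Fin 2) × Fin (2 ^ s) → X → K := fun ka x =>
      if ka.1.2 = 0 then z ka.1.1 x ^ (q ^ (ka.2 : ℕ)) else V ka.1.1 x ^ (q ^ (ka.2 : ℕ))
    let y2 : (κ × Fin 2) × Fin (2 ^ s) → X → K := fun ka x =>
      if ka.1.2 = 0 then z ka.1.1 x ^ (q ^ (ka.2 : ℕ)) else z ka.1.1 x ^ (q ^ ((ka.2 : ℕ) + 2 ^ s))
    let σ : (κ × Fin 2) × Fin (2 ^ s) → (κ × Fin 2) × Fin (2 ^ s) :=
      fun ka => ((ka.1.1, 1 - ka.1.2), ka.2)
    have hfr : ∀ (n : ℕ) (a b : K), (a + b) ^ (q ^ n) = a ^ (q ^ n) + b ^ (q ^ n) := by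
      intro n a b
      exact map_add (frobPow q hq0 hadd n) a b
    have hzbar : ∀ k x, z k x ^ (q ^ 2 ^ s) = z k x + (ω ^ (q ^ 2 ^ s) - ω) * V k x := by
      intro k x
      conv_lhs => rw [hUV k x, hfr, mul_pow, hU, hV]
      rw [hUV k x]
      ring
    have hdd : ∀ (n : ℕ) (a b : K), (a - b) ^ (q ^ n) = a ^ (q ^ n) - b ^ (q ^ n) := by
      intro n a b
      exact map_sub (frobPow q hq0 hadd n) a b
    -- stage one
    have hF0 : FrobClosed q y0 := frobClosed_of_fixed q s z' hz'
    obtain ⟨T1, hT1, hT1'⟩ := stage_flip (X := X) q (fun ka => if ka.1.2 = 0 then 6 else 4) y0 y1 σ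
      (fun _ => 1) (fun ka => if ka.1.2 = 0 then ω ^ (q ^ (ka.2 : ℕ)) else 0) hF0
      (by
        intro k l
        have : (if l.1.2 = 0 then 6 else 4) ≤ 6 := by split_ifs <;> omega
        have h4 : 4 ≤ (if k.1.2 = 0 then 6 else 4) := by split_ifs <;> omega
        calc (if l.1.2 = 0 then 6 else 4) + 2 ≤ 8 := by omega
          _ ≤ 4 * 2 := by norm_num
          _ ≤ _ := Nat.mul_le_mul h4 hq)
      (by
        rintro ⟨⟨k, ε⟩, a⟩ h
        simp only [σ] at h ⊢
        by_cases hε : ε = 0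
        · subst hε
          simp
        · rw [if_neg hε] at h
          exact absurd rfl h)
      (by
        rintro ⟨⟨k, ε⟩, a⟩ x
        simp only [y1, y0, z', σ]
        by_cases hε : ε = 0
        · subst hε
          simp only [if_true, sub_zero, one_ne_zero, if_false, one_mul]
          rw [hUV k x, hfr, mul_pow]
        · simp [hε])
    -- stage two
    have hF1 : FrobClosed q y1 := by
      rintro ⟨⟨k, ε⟩, a⟩
      by_cases hε : ε = 0
      · subst hε
        by_cases h : (a : ℕ) + 1 < 2 ^ s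
        · refine ⟨fun l => if l = ((k, 0), ⟨a + 1, h⟩) then 1 else 0, fun x => ?_⟩
          simp only [ite_mul, one_mul, zero_mul, Finset.sum_ite_eq', Finset.mem_univ, if_true, y1]
          rw [← pow_mul, pow_succ]
        · have h2 : (a : ℕ) + 1 = 2 ^ s := by have := a.2; omega
          refine ⟨fun l => (if l = ((k, 0), ⟨0, Nat.two_pow_pos s⟩) then 1 else 0) +
            (if l = ((k, 1), ⟨0, Nat.two_pow_pos s⟩) then (ω ^ (q ^ 2 ^ s) - ω) else 0),
            fun x => ?_⟩
          simp only [add_mul, Finset.sum_add_distrib, ite_mul, one_mul, zero_mul,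
            Finset.sum_ite_eq', Finset.mem_univ, if_true, y1, one_ne_zero, if_false, pow_zero,
            pow_one]
          rw [← pow_mul, ← pow_succ, h2, hzbar]
      · by_cases h : (a : ℕ) + 1 < 2 ^ s
        · refine ⟨fun l => if l = ((k, ε), ⟨a + 1, h⟩) then 1 else 0, fun x => ?_⟩
          simp only [ite_mul, one_mul, zero_mul, Finset.sum_ite_eq', Finset.mem_univ, if_true, y1,
            hε, if_false]
          rw [← pow_mul, pow_succ]
        · have h2 : (a : ℕ) + 1 = 2 ^ s := by have := a.2; omega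
          refine ⟨fun l => if l = ((k, ε), ⟨0, Nat.two_pow_pos s⟩) then 1 else 0, fun x => ?_⟩
          simp only [ite_mul, one_mul, zero_mul, Finset.sum_ite_eq', Finset.mem_univ, if_true, y1,
            hε, if_false]
          rw [← pow_mul, ← pow_succ, h2, hV]
          simp
    obtain ⟨T2, hT2, hT2'⟩ := stage_flip (X := X) q (fun ka => if ka.1.2 = 0 then 4 else 6) y1 y2 σ
      (fun ka => if ka.1.2 = 0 then 1 else (ω ^ (q ^ 2 ^ s) - ω) ^ (q ^ (ka.2 : ℕ)))
      (fun ka => if ka.1.2 = 0 then 0 else 1) hF1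
      (by
        intro k l
        have : (if l.1.2 = 0 then 4 else 6) ≤ 6 := by split_ifs <;> omega
        have h4 : 4 ≤ (if k.1.2 = 0 then 4 else 6) := by split_ifs <;> omega
        calc (if l.1.2 = 0 then 4 else 6) + 2 ≤ 8 := by omega
          _ ≤ 4 * 2 := by norm_num
          _ ≤ _ := Nat.mul_le_mul h4 hq)
      (by
        rintro ⟨⟨k, ε⟩, a⟩ h
        simp only [σ] at h ⊢
        by_cases hε : ε = 0
        · subst hε
          simp at h
        · have hε1 : ε = 1 := by omega
          subst hε1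
          simp)
      (by
        rintro ⟨⟨k, ε⟩, a⟩ x
        simp only [y1, y2, σ]
        by_cases hε : ε = 0
        · subst hε
          simp
        · have hε1 : ε = 1 := by omega
          subst hε1
          simp only [one_ne_zero, if_false, sub_self, if_true, one_mul]
          rw [pow_add, mul_comm (q ^ (a : ℕ)), pow_mul, hzbar, hfr, mul_pow]
          ring)
    have hd1 := decR_stage (X := X) q (by omega) _ (fun k => by
      split_ifs <;> omega) y0 y1 T1 hT1 hT1' τ L hτ hL
      (pow_nonneg (spB_pos _ _ _ _).le _) hdec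
    have hd2 := decR_stage (X := X) q (by omega) _ (fun k => by
      split_ifs <;> omega) y1 y2 T2 hT2 hT2' τ L hτ hL
      (mul_nonneg (pow_nonneg (spB_pos _ _ _ _).le _) (spB_pos _ _ _ _).le) hd1
    rw [hnI] at hd2
    have hre := evalMat_reindex (K := K) (X := X) q (splitEquiv κ s)
      (fun (ka : κ × Fin (2 ^ (s + 1))) x => z ka.1 x ^ (q ^ (ka.2 : ℕ))) y2 (by
        rintro ⟨⟨k, ε⟩, a⟩ x
        obtain ⟨h1, h2⟩ := splitEquiv_symm_apply κ s k ε a
        rw [h1, h2]
        simp only [y2]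
        by_cases hε : ε = 0
        · subst hε
          simp
        · have hε1 : ε = 1 := by omega
          subst hε1
          simp)
    rw [hre]
    refine (hd2.submatrix id (fun (j : κ × Fin (2 ^ (s + 1)) → Fin q) i' =>
      j ((splitEquiv κ s).symm i')) Function.injective_id
      ?_).mono ?_ ?_
    · intro j j' h
      funext i
      have := congrFun h ((splitEquiv κ s) i)
      simpa using this
    · push_cast
      linarith
    · have : 2 * (s + 1) + 2 = (2 * s + 2) + 1 + 1 := by ring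
      rw [this]
      exact le_of_eq (by ring)

end Pool.Agent.Lib.MP_d64ee4_lc
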